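import Mathlib

set_option autoImplicit false

open MeasureTheory Set Topology

namespace Pool.Agent.Helper823.ManeG

/-- Euclidean space `ℝᴺ`. -/
abbrev E (N : ℕ) := EuclideanSpace ℝ (Fin N)

/-- (internal) abstract data: a compact base `B`, fibres `T x ⊆ ℝᴺ`, closedness tests
`(x, v) ↦ b x + ⟨a x, v⟩` and the forms `(x, v) ↦ ⟨form i x, v⟩`. -/
structure Data (B : Type) [MetricSpace B] (N d : ℕ) where
  T : B → Submodule ℝ (E N)
  closedT : IsClosed {p : B × E N | p.2 ∈ T p.1}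
  tests : Set ((B → E N) × (B → ℝ))
  test_cont : ∀ q ∈ tests, Continuous q.1 ∧ Continuous q.2
  form : Fin d → B → E N
  form_cont : ∀ i, Continuous (form i)

/-- (internal) closed probability measures of the abstract data -/
structure IsClosedM {B : Type} [MetricSpace B] [MeasurableSpace B] {N d : ℕ} (D : Data B N d)
    (μ : Measure (B × E N)) : Prop where
  prob : IsProbabilityMeasure μ
  supp : ∀ᵐ p ∂μ, p.2 ∈ D.T p.1
  moment : Integrable (fun p : B × E N => ‖p.2‖) μ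
  closed : ∀ q ∈ D.tests, ∫ p, (q.2 p.1 + inner ℝ (q.1 p.1) p.2) ∂μ = 0

/-- (internal) rotation vector -/
noncomputable def rotM {B : Type} [MetricSpace B] [MeasurableSpace B] {N d : ℕ} (D : Data B N d)
    (μ : Measure (B × E N)) : E d :=
  WithLp.toLp 2 (fun i => ∫ p : B × E N, inner ℝ (D.form i p.1) p.2 ∂μ)

/-- (internal) -/
def AdmM {B : Type} [MetricSpace B] [MeasurableSpace B] {N d : ℕ} (D : Data B N d)
    (L : B × E N → ℝ) (h : E d) (μ : Measure (B × E N)) : Prop :=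
  IsClosedM D μ ∧ Integrable L μ ∧ rotM D μ = h

/-- (internal) -/
def IsMinM {B : Type} [MetricSpace B] [MeasurableSpace B] {N d : ℕ} (D : Data B N d)
    (L : B × E N → ℝ) (h : E d) (μ : Measure (B × E N)) : Prop :=
  AdmM D L h μ ∧ ∀ ν : Measure (B × E N), AdmM D L h ν → ∫ p, L p ∂μ ≤ ∫ p, L p ∂ν

/-- (internal) every class is the class of a closed measure of bounded support -/
def HasClosed {B : Type} [MetricSpace B] [MeasurableSpace B] {N d : ℕ} (D : Data B N d) : Prop :=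
  ∀ h : E d, ∃ μ : Measure (B × E N), IsClosedM D μ ∧ (∃ R : ℝ, ∀ᵐ p ∂μ, ‖p.2‖ ≤ R) ∧
    rotM D μ = h

/-- (internal) the action value -/
noncomputable def betaM {B : Type} [MetricSpace B] [MeasurableSpace B] {N d : ℕ} (D : Data B N d)
    (L : B × E N → ℝ) (f : B → ℝ) (h : E d) : ℝ :=
  sInf {a : ℝ | ∃ μ : Measure (B × E N), AdmM D L h μ ∧ a = ∫ p, (L p + f p.1) ∂μ}

/-- (internal) continuous; on the fibres `T x`: bounded below, strictly convex, superlinear. -/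
structure NiceM {B : Type} [MetricSpace B] {N d : ℕ} (D : Data B N d)
    (L : B × E N → ℝ) : Prop where
  cont : Continuous L
  bdd : ∃ A : ℝ, ∀ (x : B), ∀ v ∈ D.T x, A ≤ L (x, v)
  convex : ∀ x : B, StrictConvexOn ℝ (D.T x : Set (E N)) (fun v => L (x, v))
  superlinear : ∀ A : ℝ, ∃ R : ℝ, ∀ (x : B), ∀ v ∈ D.T x, R ≤ ‖v‖ → A * ‖v‖ ≤ L (x, v)

/-- (internal) -/
def GoodM {B : Type} [MetricSpace B] [MeasurableSpace B] {N d : ℕ} (D : Data B N d)
    (L : B × E N → ℝ) (g f : B → ℝ) (ε : ℝ) (h : E d) : Prop :=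
  ∃ δ > 0, -(ε * δ) < betaM D L (fun x => f x + δ * g x) h
    + betaM D L (fun x => f x + (-δ) * g x) h - 2 * betaM D L f h

/-- (internal) empty if `d ≤ 2`, null for the `(d-2)`-dimensional Hausdorff measure if `2 ≤ d` -/
def NullSet (d : ℕ) (S : Set (E d)) : Prop :=
  (d ≤ 2 → S = ∅) ∧ (2 ≤ d → μH[(d : ℝ) - 2] S = 0)

open scoped ContDiff

/-- The base `M × 𝕋` for `M ⊆ ℝᴺ`. -/
abbrev Base {N : ℕ} (M : Set (E N)) := M × UnitAddCircle

/-- `M ⊆ ℝᴺ` is a compact connected `C^∞` submanifold without boundary, of codimension `r`, and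
`T x` is its tangent space at `x ∈ M`: locally `M` is the zero set of a submersion `F` and
`T x = ker dF(x)`. -/
structure IsSubmanifold {N : ℕ} (r : ℕ) (M : Set (E N)) (T : E N → Submodule ℝ (E N)) :
    Prop where
  compact : IsCompact M
  connected : IsConnected M
  chart : ∀ x₀ ∈ M, ∃ (U : Set (E N)) (F : E N → E r), IsOpen U ∧ x₀ ∈ U ∧
    ContDiffOn ℝ ∞ F U ∧ (∀ x ∈ U, x ∈ M ↔ F x = 0) ∧
    ∀ x ∈ M ∩ U, Function.Surjective (fderiv ℝ F x) ∧ ∀ v, v ∈ T x ↔ fderiv ℝ F x v = 0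

/-- `φ` is a `C^k` function on `ℝᴺ × 𝕋`. -/
def IsCkA {N : ℕ} (k : ℕ) (φ : E N × UnitAddCircle → ℝ) : Prop :=
  ContDiff ℝ k (fun y : E N × ℝ => φ (y.1, (y.2 : UnitAddCircle)))

/-- `f` is a `C^k` function on `M × 𝕋`: it extends to a `C^k` function on `ℝᴺ × 𝕋`. -/
def IsCk {N : ℕ} (k : ℕ) (M : Set (E N)) (f : Base M → ℝ) : Prop :=
  ∃ φ : E N × UnitAddCircle → ℝ, IsCkA k φ ∧ ∀ p : Base M, φ (p.1, p.2) = f p

/-- Tonelli Lagrangians of class `C^k` on `TM × 𝕋`, given by a `C^k` function on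
`M × 𝕋 × ℝᴺ`; only the values on `TM × 𝕋` matter. -/
structure IsTonelli {N : ℕ} (k : ℕ) (M : Set (E N)) (T : E N → Submodule ℝ (E N))
    (L : Base M × E N → ℝ) : Prop where
  smooth : ∃ Λ : (E N × UnitAddCircle) × E N → ℝ,
    ContDiff ℝ k (fun z : (E N × ℝ) × E N => Λ ((z.1.1, (z.1.2 : UnitAddCircle)), z.2)) ∧
    ∀ (p : Base M) (v : E N), Λ ((p.1, p.2), v) = L (p, v)
  convex : ∀ p : Base M, ∀ v ∈ T p.1, ∀ w ∈ T p.1, w ≠ 0 →
    0 < iteratedFDeriv ℝ 2 (fun u => L (p, u)) v (fun _ => w)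
  superlinear : ∀ A : ℝ, ∃ R : ℝ, ∀ p : Base M, ∀ v ∈ T p.1, R ≤ ‖v‖ → A * ‖v‖ ≤ L (p, v)

/-- The total derivative `∂ₜφ + dφ(v)` at `p = ((x, t), v)`. -/
noncomputable def totalDeriv {N : ℕ} {M : Set (E N)} (φ : E N × UnitAddCircle → ℝ)
    (p : Base M × E N) : ℝ :=
  deriv (fun s : ℝ => φ ((p.1.1 : E N) + s • p.2, p.1.2 + (s : UnitAddCircle))) 0

/-- Closed (holonomic) probability measures on `TM × 𝕋`. -/
structure IsClosedMeasure {N : ℕ} (M : Set (E N)) (T : E N → Submodule ℝ (E N))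
    (μ : Measure (Base M × E N)) : Prop where
  prob : IsProbabilityMeasure μ
  tangent : ∀ᵐ p ∂μ, p.2 ∈ T p.1.1
  moment : Integrable (fun p : Base M × E N => ‖p.2‖) μ
  closed : ∀ φ : E N × UnitAddCircle → ℝ, IsCkA 1 φ → ∫ p, totalDeriv φ p ∂μ = 0

/-- The `1`-form `v ↦ ⟨η x, v⟩` on `M` is exact on `M ∩ U`. -/
def IsExactOn {N : ℕ} (M : Set (E N)) (T : E N → Submodule ℝ (E N)) (U : Set (E N))
    (η : E N → E N) : Prop :=
  ∃ ψ : E N → ℝ, ContDiff ℝ 1 ψ ∧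
    ∀ x ∈ M ∩ U, ∀ v ∈ T x, (inner ℝ (η x) v : ℝ) = fderiv ℝ ψ x v

/-- The `1`-form `v ↦ ⟨η x, v⟩` on `M` is closed. -/
def IsClosedForm {N : ℕ} (M : Set (E N)) (T : E N → Submodule ℝ (E N))
    (η : E N → E N) : Prop :=
  ContinuousOn η M ∧ ∀ x ∈ M, ∃ U : Set (E N), IsOpen U ∧ x ∈ U ∧ IsExactOn M T U η

/-- The classes of `η 0, …, η (d-1)` are a basis of `H¹(M, ℝ)` and the loops
`γ 0, …, γ (d-1)` are dual to them (so `d = b₁(M)`). -/
structure IsHomologyBasis {N d : ℕ} (M : Set (E N)) (T : E N → Submodule ℝ (E N))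
    (η : Fin d → E N → E N) (γ : Fin d → ℝ → E N) : Prop where
  form : ∀ i, IsClosedForm M T (η i)
  span : ∀ ζ : E N → E N, IsClosedForm M T ζ →
    ∃ c : Fin d → ℝ, IsExactOn M T Set.univ (fun x => ζ x - ∑ i, c i • η i x)
  loop : ∀ j, ContDiff ℝ 1 (γ j) ∧ (∀ t, γ j (t + 1) = γ j t) ∧ ∀ t, γ j t ∈ M
  dual : ∀ i j, ∫ t in (0 : ℝ)..1, (inner ℝ (η i (γ j t)) (deriv (γ j) t) : ℝ)
    = if i = j then 1 else 0

/-- The homology class of `μ` in `H₁(M, ℝ) = ℝᵈ`: the integrals of the forms `η i`. -/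
noncomputable def hom {N d : ℕ} {M : Set (E N)} (η : Fin d → E N → E N)
    (μ : Measure (Base M × E N)) : E d :=
  WithLp.toLp 2 (fun i => ∫ p : Base M × E N, (inner ℝ (η i p.1.1) p.2 : ℝ) ∂μ)

/-- `μ` is a closed probability measure of homology class `h` and finite action. -/
def Adm {N d : ℕ} (M : Set (E N)) (T : E N → Submodule ℝ (E N)) (η : Fin d → E N → E N)
    (L : Base M × E N → ℝ) (h : E d) (μ : Measure (Base M × E N)) : Prop :=
  IsClosedMeasure M T μ ∧ Integrable L μ ∧ hom η μ = h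

/-- `μ` minimizes the action among the closed probability measures of homology class `h`. -/
def IsMinimizing {N d : ℕ} (M : Set (E N)) (T : E N → Submodule ℝ (E N))
    (η : Fin d → E N → E N) (L : Base M × E N → ℝ) (h : E d)
    (μ : Measure (Base M × E N)) : Prop :=
  Adm M T η L h μ ∧ ∀ ν, Adm M T η L h ν → ∫ p, L p ∂μ ≤ ∫ p, L p ∂ν

/-- `‖f - g‖_{C^k(M × 𝕋)} < ε`: the difference has an extension to `ℝᴺ × 𝕋` all of whose
derivatives up to order `k` are smaller than `ε` at the points of `M × 𝕋`. -/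
def CloseCk {N : ℕ} (k : ℕ) (M : Set (E N)) (f g : Base M → ℝ) (ε : ℝ) : Prop :=
  ∃ φ : E N × UnitAddCircle → ℝ, IsCkA k φ ∧ (∀ p : Base M, φ (p.1, p.2) = f p - g p) ∧
    ∀ j ≤ k, ∀ x ∈ M, ∀ t : ℝ,
      ‖iteratedFDeriv ℝ j (fun y : E N × ℝ => φ (y.1, (y.2 : UnitAddCircle))) (x, t)‖ < ε

/-- `O ∩ C^k(M × 𝕋)` is open in `C^k(M × 𝕋)`. -/
def IsOpenCk {N : ℕ} (k : ℕ) (M : Set (E N)) (O : Set (Base M → ℝ)) : Prop :=
  ∀ f ∈ O, IsCk k M f → ∃ ε > 0, ∀ g, IsCk k M g → CloseCk k M f g ε → g ∈ O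

/-- `O ∩ C^k(M × 𝕋)` is dense in `C^k(M × 𝕋)`. -/
def IsDenseCk {N : ℕ} (k : ℕ) (M : Set (E N)) (O : Set (Base M → ℝ)) : Prop :=
  ∀ f, IsCk k M f → ∀ ε > 0, ∃ g ∈ O, IsCk k M g ∧ CloseCk k M f g ε

/-- `S ∩ C^k(M × 𝕋)` contains a countable intersection of open dense subsets of
`C^k(M × 𝕋)`. -/
def IsResidualCk {N : ℕ} (k : ℕ) (M : Set (E N)) (S : Set (Base M → ℝ)) : Prop :=
  ∃ O : ℕ → Set (Base M → ℝ), (∀ i, IsOpenCk k M (O i)) ∧ (∀ i, IsDenseCk k M (O i)) ∧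
    ∀ f, IsCk k M f → (∀ i, f ∈ O i) → f ∈ S

end Pool.Agent.Helper823.ManeG
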