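import Pool.Agent.Helper823.ManeG.Defs
import Pool.Agent.Helper823.ManeN.Xfinal

set_option autoImplicit false
open MeasureTheory Set Topology
namespace Pool.Agent.Helper823.ManeG
alias saddle_ae := Pool.Agent.Helper823.ManeN.saddle_ae
alias small_cover := Pool.Agent.Helper823.ManeN.small_cover
alias null_of_small_cover := Pool.Agent.Helper823.ManeN.null_of_small_cover
alias second_difference := Pool.Agent.Helper823.ManeN.second_difference
end Pool.Agent.Helper823.ManeG
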