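import Pool.Agent.Helper823.ManeG.Defs

set_option autoImplicit false
open MeasureTheory Set Topology

namespace Pool.Agent.Helper823.ManeG
namespace Xbary


/-! TARGET: prove this one -/
theorem barycenterM {B : Type} [MetricSpace B] [CompactSpace B] [MeasurableSpace B] [BorelSpace B]
    {N d : ℕ} (D : Data B N d)
    (L : B × E N → ℝ) (hL : NiceM D L) (h : E d)
    (μ : Measure (B × E N)) (hμ : AdmM D L h μ) :
    ∃ V : B → E N, Measurable V ∧ AdmM D L h ((μ.map Prod.fst).map (fun x => (x, V x))) ∧
      ∫ p, L p ∂((μ.map Prod.fst).map (fun x => (x, V x))) ≤ ∫ p, L p ∂μ ∧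
      (∫ p, L p ∂((μ.map Prod.fst).map (fun x => (x, V x))) = ∫ p, L p ∂μ →
        ∀ᵐ p ∂μ, p.2 = V p.1) := by
  obtain ⟨⟨hprob, hsupp, hmom, hcl⟩, hLi, hrot⟩ := hμ
  have hp := hprob
  obtain ⟨A, hA⟩ := hL.bdd
  obtain ⟨m, hm⟩ : ∃ m : Measure B, m = μ.map Prod.fst := ⟨_, rfl⟩
  have hmp : IsProbabilityMeasure m := by
    rw [hm]; exact Measure.isProbabilityMeasure_map measurable_fst.aemeasurable
  obtain ⟨κ, hκ⟩ : ∃ κ : ProbabilityTheory.Kernel B (E N), κ = μ.condKernel := ⟨_, rfl⟩
  have hκp : ProbabilityTheory.IsMarkovKernel κ := by rw [hκ]; infer_instance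
  have hdis : m.compProd κ = μ := by
    rw [hm, hκ]
    exact μ.disintegrate μ.condKernel
  rw [← hm]
  have h2 : Integrable (fun p : B × E N => p.2) (m.compProd κ) := by
    rw [hdis]
    exact (integrable_norm_iff measurable_snd.aestronglyMeasurable).1 hmom
  have hsupp' : ∀ᵐ x ∂m, ∀ᵐ v ∂(κ x), v ∈ D.T x := by
    have h0 : ∀ᵐ p ∂(m.compProd κ), p.2 ∈ D.T p.1 := by rw [hdis]; exact hsupp
    exact Measure.ae_ae_of_ae_compProd h0
  obtain ⟨V, hVdef⟩ : ∃ V : B → E N, V = fun x => ∫ v, v ∂(κ x) := ⟨_, rfl⟩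
  have hV : Measurable V := by
    rw [hVdef]
    exact (StronglyMeasurable.integral_kernel_prod_right' (κ := κ) (f := fun p : B × E N => p.2)
      measurable_snd.stronglyMeasurable).measurable
  have h2a := (Measure.integrable_compProd_iff h2.aestronglyMeasurable).1 h2
  have hVi : Integrable V m := by
    refine Integrable.mono' h2a.2 hV.aestronglyMeasurable (ae_of_all _ fun x => ?_)
    rw [hVdef]
    exact norm_integral_le_integral_norm _
  have hVT : ∀ᵐ x ∂m, V x ∈ D.T x := by
    filter_upwards [hsupp', h2a.1] with x hx1 hx2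
    rw [hVdef]
    exact Convex.integral_mem (s := (D.T x : Set (E N))) (D.T x).convex
      (D.T x).closed_of_finiteDimensional hx1 hx2
  have hT : Measurable (fun x => (x, V x)) := measurable_id.prodMk hV
  have hLm : Measurable L := hL.cont.measurable
  have hL1 : Integrable L (m.compProd κ) := by rw [hdis]; exact hLi
  have hL2 := (Measure.integrable_compProd_iff hL1.aestronglyMeasurable).1 hL1
  have hJm : StronglyMeasurable (fun x => ∫ v, L (x, v) ∂(κ x)) :=
    StronglyMeasurable.integral_kernel_prod_right' (κ := κ) (f := L) hLm.stronglyMeasurable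
  have hJi : Integrable (fun x => ∫ v, L (x, v) ∂(κ x)) m := by
    refine Integrable.mono' hL2.2 hJm.aestronglyMeasurable (ae_of_all _ fun x => ?_)
    exact norm_integral_le_integral_norm _
  have hcont : ∀ x, Continuous (fun v => L (x, v)) := fun x =>
    hL.cont.comp (Continuous.prodMk_right x)
  have hjen : ∀ᵐ x ∂m, L (x, V x) ≤ ∫ v, L (x, v) ∂(κ x) := by
    filter_upwards [hsupp', h2a.1, hL2.1] with x hx0 hx1 hx2
    rw [hVdef]
    exact ConvexOn.map_integral_le (s := (D.T x : Set (E N))) (f := fun v : E N => v)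
      (g := fun v => L (x, v))
      (hL.convex x).convexOn (hcont x).continuousOn (D.T x).closed_of_finiteDimensional
      hx0 hx1 hx2
  have hLV : Integrable (fun x => L (x, V x)) m := by
    refine Integrable.mono' (g := fun x => |∫ v, L (x, v) ∂(κ x)| + |A|)
      (hJi.abs.add (integrable_const _)) (hLm.comp hT).aestronglyMeasurable ?_
    filter_upwards [hjen, hVT] with x hx hxT
    rw [Real.norm_eq_abs, abs_le]
    constructor
    · linarith [hA x (V x) hxT, neg_abs_le A, abs_nonneg (∫ v, L (x, v) ∂(κ x))]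
    · linarith [le_abs_self (∫ v, L (x, v) ∂(κ x)), abs_nonneg A]
  have hint : ∫ p, L p ∂μ = ∫ x, ∫ v, L (x, v) ∂(κ x) ∂m := by
    rw [← Measure.integral_compProd hL1, hdis]
  have hint' : ∫ p, L p ∂(m.map (fun x => (x, V x))) = ∫ x, L (x, V x) ∂m :=
    integral_map hT.aemeasurable hLm.aestronglyMeasurable
  have haff : ∀ (a : B → E N) (b : B → ℝ), Continuous a → Continuous b →
      ∫ p, (b p.1 + inner ℝ (a p.1) p.2) ∂(m.map (fun x => (x, V x))) =
        ∫ p, (b p.1 + inner ℝ (a p.1) p.2) ∂μ := by
    intro a b ha hb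
    have hmeas : Continuous (fun p : B × E N => b p.1 + inner ℝ (a p.1) p.2) := by fun_prop
    obtain ⟨Ca, hCa⟩ : ∃ C, ∀ x, ‖a x‖ ≤ C := by
      obtain ⟨C, hC⟩ := (isCompact_range ha).isBounded.exists_norm_le
      exact ⟨C, fun x => hC _ (mem_range_self x)⟩
    obtain ⟨Cb, hCb⟩ : ∃ C, ∀ x, ‖b x‖ ≤ C := by
      obtain ⟨C, hC⟩ := (isCompact_range hb).isBounded.exists_norm_le
      exact ⟨C, fun x => hC _ (mem_range_self x)⟩
    have hi : Integrable (fun p : B × E N => b p.1 + inner ℝ (a p.1) p.2) μ := by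
      refine Integrable.mono' (g := fun p => Cb + Ca * ‖p.2‖)
        ((integrable_const _).add (hmom.const_mul _)) hmeas.aestronglyMeasurable
        (ae_of_all _ fun p => ?_)
      refine (norm_add_le _ _).trans (add_le_add (hCb _) ?_)
      exact (norm_inner_le_norm _ _).trans
        (mul_le_mul_of_nonneg_right (hCa _) (norm_nonneg _))
    rw [integral_map hT.aemeasurable hmeas.aestronglyMeasurable]
    have hi' : Integrable (fun p : B × E N => b p.1 + inner ℝ (a p.1) p.2) (m.compProd κ) := by
      rw [hdis]; exact hi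
    have h4 : ∫ p, (b p.1 + inner ℝ (a p.1) p.2) ∂μ =
        ∫ x, ∫ v, (b x + inner ℝ (a x) v) ∂(κ x) ∂m := by
      rw [← Measure.integral_compProd hi', hdis]
    rw [h4]
    refine integral_congr_ae ?_
    filter_upwards [h2a.1] with x hx
    rw [integral_add (integrable_const _) (hx.const_inner _), integral_const, integral_inner hx]
    simp [hVdef]
  refine ⟨V, hV, ⟨⟨?_, ?_, ?_, ?_⟩, ?_, ?_⟩, ?_, ?_⟩
  · exact Measure.isProbabilityMeasure_map hT.aemeasurable
  · rw [ae_map_iff hT.aemeasurable D.closedT.measurableSet]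
    exact hVT
  · rw [integrable_map_measure (measurable_snd.norm.aestronglyMeasurable) hT.aemeasurable]
    exact hVi.norm
  · intro q hq
    rw [haff q.1 q.2 (D.test_cont q hq).1 (D.test_cont q hq).2]
    exact hcl q hq
  · rw [integrable_map_measure hLm.aestronglyMeasurable hT.aemeasurable]
    exact hLV
  · rw [← hrot]
    unfold rotM
    congr 1
    funext i
    have h5 := haff (D.form i) (fun _ => 0) (D.form_cont i) continuous_const
    simpa only [zero_add] using h5
  · rw [hint, hint']
    exact integral_mono_ae hLV hJi hjen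
  · intro heq
    rw [hint, hint'] at heq
    have h6 := (integral_eq_iff_of_ae_le hLV hJi hjen).1 heq
    have hset : MeasurableSet {p : B × E N | p.2 = V p.1} :=
      measurableSet_eq_fun measurable_snd (hV.comp measurable_fst)
    have h7 : ∀ᵐ p ∂(m.compProd κ), p.2 = V p.1 := by
      rw [Measure.ae_compProd_iff hset]
      filter_upwards [hsupp', h2a.1, hL2.1, h6] with x hx0 hx1 hx2 hx3
      have h8 := StrictConvexOn.ae_eq_const_or_map_average_lt (s := (D.T x : Set (E N)))
        (f := fun v : E N => v)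
        (g := fun v => L (x, v)) (μ := κ x)
        (hL.convex x) (hcont x).continuousOn (D.T x).closed_of_finiteDimensional
        hx0 hx1 hx2
      rw [average_eq_integral, average_eq_integral] at h8
      rcases h8 with h8 | h8
      · filter_upwards [h8] with v hv
        rw [hVdef]
        exact hv
      · exfalso
        have hx3' : L (x, V x) = ∫ v, L (x, v) ∂(κ x) := hx3
        rw [hVdef] at hx3'
        exact absurd hx3' h8.ne
    rwa [hdis] at h7


end Xbary

alias barycenterM := Xbary.barycenterM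

end Pool.Agent.Helper823.ManeG
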