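import Pool.Agent.Helper823.ManeG.Defs

set_option autoImplicit false
open MeasureTheory Set Topology

namespace Pool.Agent.Helper823.ManeG
namespace Xexadm


/-! TARGET: prove this one -/
theorem exists_admM {B : Type} [MetricSpace B] [CompactSpace B] [MeasurableSpace B] [BorelSpace B]
    {N d : ℕ} (D : Data B N d) (hex : HasClosed D)
    (L : B × E N → ℝ) (hL : Continuous L) (h : E d) : ∃ μ, AdmM D L h μ := by
  obtain ⟨μ, h1, ⟨R, hR⟩, h3⟩ := hex h
  refine ⟨μ, h1, ?_, h3⟩
  have hprob := h1.prob
  have hK : IsCompact ((Set.univ : Set B) ×ˢ Metric.closedBall (0 : E N) R) :=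
    isCompact_univ.prod (isCompact_closedBall _ _)
  obtain ⟨C, hC⟩ := hK.exists_bound_of_continuousOn hL.continuousOn
  refine Integrable.of_bound hL.aestronglyMeasurable C ?_
  filter_upwards [hR] with p hp
  exact hC p ⟨Set.mem_univ _, mem_closedBall_zero_iff.mpr hp⟩


end Xexadm

alias exists_admM := Xexadm.exists_admM

end Pool.Agent.Helper823.ManeG
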