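import Pool.Agent.Helper823.ManeG.Defs
import Pool.Agent.Helper823.ManeG.Xexadm

set_option autoImplicit false
open MeasureTheory Set Topology

namespace Pool.Agent.Helper823.ManeG
namespace Xbconc





/-! TARGET: prove this one -/
theorem betaM_concave {B : Type} [MetricSpace B] [CompactSpace B] [MeasurableSpace B] [BorelSpace B]
    {N d : ℕ} (D : Data B N d) (hex : HasClosed D)
    (L : B × E N → ℝ) (hL : NiceM D L) (f g : B → ℝ)
    (hf : Continuous f) (hg : Continuous g) (h : E d) :
    ConcaveOn ℝ Set.univ (fun s : ℝ => betaM D L (fun x => f x + s * g x) h) := by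
  have hint : ∀ (u : B → ℝ), Continuous u → ∀ μ : Measure (B × E N), IsProbabilityMeasure μ →
      Integrable (fun p : B × E N => u p.1) μ := by
    intro u hu μ hμ
    obtain ⟨C, hC⟩ := isCompact_univ.exists_bound_of_continuousOn hu.continuousOn
    refine Integrable.of_bound (hu.comp continuous_fst).aestronglyMeasurable C ?_
    exact Filter.Eventually.of_forall (fun p => hC p.1 (Set.mem_univ _))
  have hbdd : ∀ u : B → ℝ, Continuous u →
      BddBelow {a : ℝ | ∃ μ : Measure (B × E N), AdmM D L h μ ∧ a = ∫ p, (L p + u p.1) ∂μ} := by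
    intro u hu
    obtain ⟨C, hC⟩ := isCompact_univ.exists_bound_of_continuousOn hu.continuousOn
    obtain ⟨A, hA⟩ := hL.bdd
    refine ⟨A - C, ?_⟩
    rintro _ ⟨μ, hμ, rfl⟩
    haveI := hμ.1.prob
    have h1 : ∫ _p : B × E N, (A - C) ∂μ ≤ ∫ p, (L p + u p.1) ∂μ := by
      refine integral_mono_ae (integrable_const _) (hμ.2.1.add (hint u hu μ hμ.1.prob)) ?_
      filter_upwards [hμ.1.supp] with p hp
      have h2 := hC p.1 (Set.mem_univ _)
      rw [Real.norm_eq_abs] at h2
      have h3 := neg_abs_le (u p.1)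
      have h4 := hA p.1 p.2 hp
      show A - C ≤ L p + u p.1
      have h5 : A ≤ L p := h4
      linarith
    simpa using h1
  refine ⟨convex_univ, ?_⟩
  intro s _ t _ a b ha hb hab
  obtain ⟨μ0, hμ0⟩ := exists_admM D hex L hL.cont h
  show a • betaM D L (fun x => f x + s * g x) h + b • betaM D L (fun x => f x + t * g x) h ≤
    betaM D L (fun x => f x + (a • s + b • t) * g x) h
  rw [betaM]
  conv_rhs => rw [betaM]
  refine le_csInf ⟨_, μ0, hμ0, rfl⟩ ?_
  rintro _ ⟨μ, hμ, rfl⟩
  have hp := hμ.1.prob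
  have cs : Continuous (fun x => f x + s * g x) := by fun_prop
  have ct : Continuous (fun x => f x + t * g x) := by fun_prop
  have i1 : Integrable (fun p : B × E N => L p + (f p.1 + s * g p.1)) μ :=
    hμ.2.1.add (hint _ cs μ hp)
  have i2 : Integrable (fun p : B × E N => L p + (f p.1 + t * g p.1)) μ :=
    hμ.2.1.add (hint _ ct μ hp)
  have e : ∫ p, (L p + (f p.1 + (a • s + b • t) * g p.1)) ∂μ =
      a * ∫ p, (L p + (f p.1 + s * g p.1)) ∂μ + b * ∫ p, (L p + (f p.1 + t * g p.1)) ∂μ := by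
    rw [← integral_const_mul, ← integral_const_mul, ← integral_add (i1.const_mul a) (i2.const_mul b)]
    congr 1
    ext p
    simp only [smul_eq_mul]
    have hb' : b = 1 - a := by linarith
    rw [hb']
    ring
  rw [e]
  have k1 : betaM D L (fun x => f x + s * g x) h ≤ ∫ p, (L p + (f p.1 + s * g p.1)) ∂μ :=
    csInf_le (hbdd _ cs) ⟨μ, hμ, rfl⟩
  have k2 : betaM D L (fun x => f x + t * g x) h ≤ ∫ p, (L p + (f p.1 + t * g p.1)) ∂μ :=
    csInf_le (hbdd _ ct) ⟨μ, hμ, rfl⟩
  exact add_le_add (mul_le_mul_of_nonneg_left k1 ha) (mul_le_mul_of_nonneg_left k2 hb)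


end Xbconc

alias betaM_concave := Xbconc.betaM_concave

end Pool.Agent.Helper823.ManeG
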