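import Pool.Agent.Helper823.ManeG.Defs

set_option autoImplicit false
open MeasureTheory Set Topology

namespace Pool.Agent.Helper823.ManeG
namespace Xmix



theorem mmx_integrable {B : Type} [MetricSpace B] [MeasurableSpace B] {N : ℕ} {G : Type}
    [NormedAddCommGroup G] (μ ν : Measure (B × E N)) (a b : ℝ)
    (F : B × E N → G) (h1 : Integrable F μ) (h2 : Integrable F ν) :
    Integrable F (ENNReal.ofReal a • μ + ENNReal.ofReal b • ν) :=
  (h1.smul_measure ENNReal.ofReal_ne_top).add_measure (h2.smul_measure ENNReal.ofReal_ne_top)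

theorem mmx_integral {B : Type} [MetricSpace B] [MeasurableSpace B] {N : ℕ} {G : Type}
    [NormedAddCommGroup G] [NormedSpace ℝ G] (μ ν : Measure (B × E N))
    (a b : ℝ) (ha : 0 ≤ a) (hb : 0 ≤ b)
    (F : B × E N → G) (h1 : Integrable F μ) (h2 : Integrable F ν) :
    ∫ p, F p ∂(ENNReal.ofReal a • μ + ENNReal.ofReal b • ν) =
      a • ∫ p, F p ∂μ + b • ∫ p, F p ∂ν := by
  rw [integral_add_measure (h1.smul_measure ENNReal.ofReal_ne_top)
    (h2.smul_measure ENNReal.ofReal_ne_top), integral_smul_measure, integral_smul_measure,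
    ENNReal.toReal_ofReal ha, ENNReal.toReal_ofReal hb]

theorem mmx_inner {B : Type} [MetricSpace B] [CompactSpace B] [MeasurableSpace B] [BorelSpace B]
    {N d : ℕ} (D : Data B N d) (μ : Measure (B × E N)) (hμ : IsClosedM D μ)
    (a : B → E N) (ha : Continuous a) :
    Integrable (fun p : B × E N => (inner ℝ (a p.1) p.2 : ℝ)) μ := by
  have := hμ.prob
  obtain ⟨A, hA⟩ : ∃ A, ∀ x : B, ‖a x‖ ≤ A := by
    obtain ⟨A, hA⟩ := (isCompact_range ha).isBounded.exists_norm_le
    exact ⟨A, fun x => hA _ ⟨x, rfl⟩⟩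
  refine (hμ.moment.const_mul A).mono' ?_ ?_
  · exact (Continuous.inner (ha.comp continuous_fst) continuous_snd).aestronglyMeasurable
  · refine Filter.Eventually.of_forall fun p => ?_
    calc ‖(inner ℝ (a p.1) p.2 : ℝ)‖ ≤ ‖a p.1‖ * ‖p.2‖ := norm_inner_le_norm _ _
      _ ≤ A * ‖p.2‖ := mul_le_mul_of_nonneg_right (hA p.1) (norm_nonneg _)

theorem mmx_test {B : Type} [MetricSpace B] [CompactSpace B] [MeasurableSpace B] [BorelSpace B]
    {N d : ℕ} (D : Data B N d) (μ : Measure (B × E N)) (hμ : IsClosedM D μ)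
    (q : (B → E N) × (B → ℝ)) (hq : q ∈ D.tests) :
    Integrable (fun p : B × E N => q.2 p.1 + (inner ℝ (q.1 p.1) p.2 : ℝ)) μ := by
  have := hμ.prob
  obtain ⟨ha, hb⟩ := D.test_cont q hq
  obtain ⟨C, hC⟩ : ∃ C, ∀ x : B, ‖q.2 x‖ ≤ C := by
    obtain ⟨C, hC⟩ := (isCompact_range hb).isBounded.exists_norm_le
    exact ⟨C, fun x => hC _ ⟨x, rfl⟩⟩
  refine Integrable.add ?_ (mmx_inner D μ hμ q.1 ha)
  refine Integrable.of_bound (hb.comp continuous_fst).aestronglyMeasurable C ?_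
  exact Filter.Eventually.of_forall fun p => hC p.1

/-! TARGET: prove this one -/
theorem adm_mixM {B : Type} [MetricSpace B] [CompactSpace B] [MeasurableSpace B] [BorelSpace B]
    {N d : ℕ} (D : Data B N d)
    (L : B × E N → ℝ) (h h' : E d) (μ ν : Measure (B × E N))
    (hμ : AdmM D L h μ) (hν : AdmM D L h' ν) (a b : ℝ) (ha : 0 ≤ a) (hb : 0 ≤ b)
    (hab : a + b = 1) :
    AdmM D L (a • h + b • h') (ENNReal.ofReal a • μ + ENNReal.ofReal b • ν) ∧
      ∀ F : B × E N → ℝ, Integrable F μ → Integrable F ν →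
        ∫ p, F p ∂(ENNReal.ofReal a • μ + ENNReal.ofReal b • ν)
          = a * ∫ p, F p ∂μ + b * ∫ p, F p ∂ν := by
  obtain ⟨hμ1, hμ2, hμ3⟩ := hμ
  obtain ⟨hν1, hν2, hν3⟩ := hν
  refine ⟨⟨⟨?_, ?_, ?_, ?_⟩, ?_, ?_⟩, ?_⟩
  · have h1 := hμ1.prob
    have h2 := hν1.prob
    refine ⟨?_⟩
    rw [Measure.add_apply, Measure.smul_apply, Measure.smul_apply, measure_univ, measure_univ,
      smul_eq_mul, smul_eq_mul, mul_one, mul_one, ← ENNReal.ofReal_add ha hb, hab,
      ENNReal.ofReal_one]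
  · rw [ae_add_measure_iff]
    exact ⟨Measure.ae_smul_measure hμ1.supp _, Measure.ae_smul_measure hν1.supp _⟩
  · exact mmx_integrable μ ν a b _ hμ1.moment hν1.moment
  · intro q hq
    have h1 := mmx_integral μ ν a b ha hb _ (mmx_test D μ hμ1 q hq) (mmx_test D ν hν1 q hq)
    rw [h1, hμ1.closed q hq, hν1.closed q hq]
    simp
  · exact mmx_integrable μ ν a b _ hμ2 hν2
  · rw [← hμ3, ← hν3]
    ext i
    have h1 := mmx_integral μ ν a b ha hb _ (mmx_inner D μ hμ1 (D.form i) (D.form_cont i))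
      (mmx_inner D ν hν1 (D.form i) (D.form_cont i))
    simpa [rotM] using h1
  · intro F h1 h2
    have := mmx_integral μ ν a b ha hb F h1 h2
    simpa [smul_eq_mul] using this



end Xmix

alias adm_mixM := Xmix.adm_mixM

end Pool.Agent.Helper823.ManeG
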