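import Pool.Agent.Helper823.ManeG.Defs
import Pool.Agent.Helper823.ManeG.Xexadm
import Pool.Agent.Helper823.ManeG.Xmix

set_option autoImplicit false
open MeasureTheory Set Topology

namespace Pool.Agent.Helper823.ManeG
namespace Xbconv







/-! TARGET: prove this one -/
theorem betaM_convex {B : Type} [MetricSpace B] [CompactSpace B] [MeasurableSpace B] [BorelSpace B]
    {N d : ℕ} (D : Data B N d) (hex : HasClosed D)
    (L : B × E N → ℝ) (hL : NiceM D L) (f : B → ℝ)
    (hf : Continuous f) : ConvexOn ℝ Set.univ (betaM D L f) := by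
  obtain ⟨C, hC⟩ := isCompact_univ.exists_bound_of_continuousOn (f := f) hf.continuousOn
  obtain ⟨A, hA⟩ := hL.bdd
  have hInt : ∀ (h : E d) (μ : Measure (B × E N)), AdmM D L h μ →
      Integrable (fun p : B × E N => L p + f p.1) μ := by
    intro h μ hμ
    haveI := hμ.1.prob
    refine hμ.2.1.add ?_
    refine Integrable.of_bound (C := C) ?_ ?_
    · exact (hf.comp continuous_fst).aestronglyMeasurable
    · exact Filter.Eventually.of_forall (fun p => hC p.1 (Set.mem_univ _))
  have hbdd : ∀ h : E d, BddBelow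
      {a : ℝ | ∃ μ : Measure (B × E N), AdmM D L h μ ∧ a = ∫ p, (L p + f p.1) ∂μ} := by
    intro h
    refine ⟨A - C, ?_⟩
    rintro a ⟨μ, hμ, rfl⟩
    haveI := hμ.1.prob
    have h1 : ∫ p : B × E N, (A - C) ∂μ ≤ ∫ p, (L p + f p.1) ∂μ := by
      refine integral_mono_ae (integrable_const _) (hInt h μ hμ) ?_
      filter_upwards [hμ.1.supp] with p hp
      have h2 := hA p.1 p.2 hp
      have h3 := hC p.1 (Set.mem_univ _)
      rw [Real.norm_eq_abs] at h3
      have h4 := (abs_le.1 h3).1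
      show A - C ≤ L p + f p.1
      have h5 : L (p.1, p.2) = L p := rfl
      rw [h5] at h2
      linarith
    simpa using h1
  have hne : ∀ h : E d,
      {a : ℝ | ∃ μ : Measure (B × E N), AdmM D L h μ ∧ a = ∫ p, (L p + f p.1) ∂μ}.Nonempty := by
    intro h
    obtain ⟨μ, hμ⟩ := exists_admM D hex L hL.cont h
    exact ⟨_, μ, hμ, rfl⟩
  refine ⟨convex_univ, ?_⟩
  intro h _ h' _ a b ha hb hab
  refine le_of_forall_pos_le_add ?_
  intro ε hε
  have e1 : betaM D L f h < betaM D L f h + ε := by linarith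
  have e2 : betaM D L f h' < betaM D L f h' + ε := by linarith
  obtain ⟨x, ⟨μ, hμ, rfl⟩, hx⟩ := exists_lt_of_csInf_lt (hne h) e1
  obtain ⟨y, ⟨ν, hν, rfl⟩, hy⟩ := exists_lt_of_csInf_lt (hne h') e2
  obtain ⟨m1, m2⟩ := adm_mixM D L h h' μ ν hμ hν a b ha hb hab
  have m3 := m2 (fun p => L p + f p.1) (hInt h μ hμ) (hInt h' ν hν)
  have m4 : betaM D L f (a • h + b • h') ≤
      ∫ p, (L p + f p.1) ∂(ENNReal.ofReal a • μ + ENNReal.ofReal b • ν) :=
    csInf_le (hbdd _) ⟨_, m1, rfl⟩
  have m5 : a * ∫ p, (L p + f p.1) ∂μ ≤ a * (betaM D L f h + ε) :=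
    mul_le_mul_of_nonneg_left hx.le ha
  have m6 : b * ∫ p, (L p + f p.1) ∂ν ≤ b * (betaM D L f h' + ε) :=
    mul_le_mul_of_nonneg_left hy.le hb
  have m7 : a * (betaM D L f h + ε) + b * (betaM D L f h' + ε) =
      a • betaM D L f h + b • betaM D L f h' + ε := by
    simp only [smul_eq_mul]
    have : ε = (a + b) * ε := by rw [hab]; ring
    nlinarith
  calc betaM D L f (a • h + b • h')
      ≤ ∫ p, (L p + f p.1) ∂(ENNReal.ofReal a • μ + ENNReal.ofReal b • ν) := m4
    _ = a * ∫ p, (L p + f p.1) ∂μ + b * ∫ p, (L p + f p.1) ∂ν := m3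
    _ ≤ a * (betaM D L f h + ε) + b * (betaM D L f h' + ε) := add_le_add m5 m6
    _ = a • betaM D L f h + b • betaM D L f h' + ε := m7


end Xbconv

alias betaM_convex := Xbconv.betaM_convex

end Pool.Agent.Helper823.ManeG
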