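import Pool.Agent.Helper823.ManeG.Defs
import Pool.Agent.Helper823.ManeG.Xexadm

set_option autoImplicit false
open MeasureTheory Set Topology

namespace Pool.Agent.Helper823.ManeG
namespace Xblip





/-! TARGET: prove this one -/
theorem betaM_lip_int {B : Type} [MetricSpace B] [CompactSpace B] [MeasurableSpace B] [BorelSpace B]
    {N : ℕ} (f : B → ℝ) (hf : Continuous f) (μ : Measure (B × E N))
    [IsProbabilityMeasure μ] : Integrable (fun p : B × E N => f p.1) μ := by
  obtain ⟨C, hC⟩ := (isCompact_univ (X := B)).exists_bound_of_continuousOn hf.continuousOn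
  exact Integrable.of_bound ((hf.measurable.comp measurable_fst).aestronglyMeasurable) C
    (Filter.Eventually.of_forall fun p => hC p.1 (mem_univ _))

theorem betaM_lip_bdd {B : Type} [MetricSpace B] [CompactSpace B] [MeasurableSpace B] [BorelSpace B]
    {N d : ℕ} (D : Data B N d) (L : B × E N → ℝ) (hL : NiceM D L) (f : B → ℝ) (hf : Continuous f)
    (h : E d) :
    BddBelow {a : ℝ | ∃ μ : Measure (B × E N), AdmM D L h μ ∧ a = ∫ p, (L p + f p.1) ∂μ} := by
  obtain ⟨C, hC⟩ := (isCompact_univ (X := B)).exists_bound_of_continuousOn hf.continuousOn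
  obtain ⟨A, hA⟩ := hL.bdd
  refine ⟨A - C, ?_⟩
  rintro _ ⟨μ, hμ, rfl⟩
  have := hμ.1.prob
  have h1 : ∫ _p : B × E N, (A - C) ∂μ ≤ ∫ p, (L p + f p.1) ∂μ := by
    apply integral_mono_ae (integrable_const _) (hμ.2.1.add (betaM_lip_int f hf μ))
    filter_upwards [hμ.1.supp] with p hp
    have h2 := (abs_le.1 (hC p.1 (mem_univ _))).1
    have h3 := hA p.1 p.2 hp
    change A - C ≤ L p + f p.1
    have h4 : L (p.1, p.2) = L p := rfl
    linarith
  simpa using h1

theorem betaM_lip_half {B : Type} [MetricSpace B] [CompactSpace B] [MeasurableSpace B] [BorelSpace B]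
    {N d : ℕ} (D : Data B N d) (hex : HasClosed D)
    (L : B × E N → ℝ) (hL : NiceM D L) (f f' : B → ℝ) (hf : Continuous f)
    (hf' : Continuous f') (ε : ℝ) (h : E d) (hε : ∀ x, |f x - f' x| ≤ ε) :
    betaM D L f h - ε ≤ betaM D L f' h := by
  unfold betaM
  obtain ⟨μ0, hμ0⟩ := exists_admM D hex L hL.cont h
  refine le_csInf ⟨∫ p, (L p + f' p.1) ∂μ0, μ0, hμ0, rfl⟩ ?_
  rintro _ ⟨μ, hμ, rfl⟩
  have := hμ.1.prob
  have h1 : sInf {a : ℝ | ∃ μ : Measure (B × E N), AdmM D L h μ ∧ a = ∫ p, (L p + f p.1) ∂μ} ≤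
      ∫ p, (L p + f p.1) ∂μ := csInf_le (betaM_lip_bdd D L hL f hf h) ⟨μ, hμ, rfl⟩
  have h2 : ∫ p, (L p + f p.1) ∂μ ≤ ∫ p, ((L p + f' p.1) + ε) ∂μ := by
    apply integral_mono (hμ.2.1.add (betaM_lip_int f hf μ))
      ((hμ.2.1.add (betaM_lip_int f' hf' μ)).add (integrable_const _))
    intro p
    have h3 := (abs_le.1 (hε p.1)).2
    change L p + f p.1 ≤ L p + f' p.1 + ε
    linarith
  have h4 : ∫ p, ((L p + f' p.1) + ε) ∂μ = ∫ p, (L p + f' p.1) ∂μ + ε := by
    have h5 : Integrable (fun p : B × E N => L p + f' p.1) μ :=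
      hμ.2.1.add (betaM_lip_int f' hf' μ)
    rw [integral_add h5 (integrable_const _)]
    simp
  linarith

theorem betaM_lip {B : Type} [MetricSpace B] [CompactSpace B] [MeasurableSpace B] [BorelSpace B]
    {N d : ℕ} (D : Data B N d) (hex : HasClosed D)
    (L : B × E N → ℝ) (hL : NiceM D L) (f f' : B → ℝ)
    (hf : Continuous f) (hf' : Continuous f') (ε : ℝ) (hε0 : 0 ≤ ε) (h : E d)
    (hε : ∀ x, |f x - f' x| ≤ ε) :
    |betaM D L f h - betaM D L f' h| ≤ ε := by
  have h1 := betaM_lip_half D hex L hL f f' hf hf' ε h hε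
  have h2 := betaM_lip_half D hex L hL f' f hf' hf ε h (fun x => by rw [abs_sub_comm]; exact hε x)
  rw [abs_le]
  constructor <;> linarith


end Xblip

alias betaM_lip := Xblip.betaM_lip

end Pool.Agent.Helper823.ManeG
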