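import Pool.Agent.Helper823.ManeG.Defs
import Pool.Agent.Helper823.ManeG.Xexadm

set_option autoImplicit false
open MeasureTheory Set Topology

namespace Pool.Agent.Helper823.ManeG
namespace Xbmin






lemma bound_of_cont {B : Type} [MetricSpace B] [CompactSpace B] (f : B → ℝ) (hf : Continuous f) :
    ∃ C : ℝ, ∀ x, |f x| ≤ C := by
  obtain ⟨C, hC⟩ := (isCompact_range hf).isBounded.exists_norm_le
  exact ⟨C, fun x => by simpa using hC (f x) ⟨x, rfl⟩⟩

lemma int_f {B : Type} [MetricSpace B] [CompactSpace B] [MeasurableSpace B] [BorelSpace B] {N : ℕ}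
    (f : B → ℝ) (hf : Continuous f) (μ : Measure (B × E N)) [IsProbabilityMeasure μ] :
    Integrable (fun p : B × E N => f p.1) μ := by
  obtain ⟨C, hC⟩ := bound_of_cont f hf
  refine Integrable.of_bound (hf.measurable.comp measurable_fst).aestronglyMeasurable C ?_
  exact Filter.Eventually.of_forall fun p => by simpa using hC p.1

lemma adm_iff {B : Type} [MetricSpace B] [CompactSpace B] [MeasurableSpace B] [BorelSpace B]
    {N d : ℕ} (D : Data B N d) (L : B × E N → ℝ) (f : B → ℝ) (hf : Continuous f) (h : E d)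
    (μ : Measure (B × E N)) :
    AdmM D L h μ ↔ AdmM D (fun p => L p + f p.1) h μ := by
  constructor
  · rintro ⟨h1, h2, h3⟩
    haveI := h1.prob
    exact ⟨h1, h2.add (int_f f hf μ), h3⟩
  · rintro ⟨h1, h2, h3⟩
    haveI := h1.prob
    refine ⟨h1, ?_, h3⟩
    have := h2.sub (int_f f hf μ)
    refine this.congr (Filter.Eventually.of_forall fun p => ?_)
    simp

/-! TARGET: prove this one -/
theorem betaM_eq_of_min {B : Type} [MetricSpace B] [CompactSpace B] [MeasurableSpace B] [BorelSpace B]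
    {N d : ℕ} (D : Data B N d) (hex : HasClosed D)
    (L : B × E N → ℝ) (hL : NiceM D L) (f : B → ℝ)
    (hf : Continuous f) (h : E d)
    (μ : Measure (B × E N)) (hμ : IsMinM D (fun p => L p + f p.1) h μ) :
    AdmM D L h μ ∧ betaM D L f h = ∫ p, (L p + f p.1) ∂μ ∧
      ∀ g : B → ℝ, Continuous g → ∀ s : ℝ,
        betaM D L (fun x => f x + s * g x) h ≤ betaM D L f h + s * ∫ p, g p.1 ∂μ := by
  have hA : AdmM D L h μ := (adm_iff D L f hf h μ).2 hμ.1
  have hbeta : betaM D L f h = ∫ p, (L p + f p.1) ∂μ := by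
    unfold betaM
    refine IsLeast.csInf_eq ⟨⟨μ, hA, rfl⟩, ?_⟩
    rintro a ⟨ν, hν, rfl⟩
    exact hμ.2 ν ((adm_iff D L f hf h ν).1 hν)
  refine ⟨hA, hbeta, fun g hg s => ?_⟩
  haveI := hA.1.prob
  have hf' : Continuous (fun x => f x + s * g x) := hf.add (continuous_const.mul hg)
  have hle : betaM D L (fun x => f x + s * g x) h ≤ ∫ p, (L p + (f p.1 + s * g p.1)) ∂μ := by
    unfold betaM
    refine csInf_le ?_ ⟨μ, hA, rfl⟩
    obtain ⟨A, hB⟩ := hL.bdd
    obtain ⟨C, hC⟩ := bound_of_cont _ hf'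
    refine ⟨A - C, ?_⟩
    rintro a ⟨ν, hν, rfl⟩
    haveI := hν.1.prob
    have h1 : ∫ _p : B × E N, (A - C) ∂ν = A - C := by simp
    rw [← h1]
    refine integral_mono_ae (integrable_const _) (hν.2.1.add (int_f _ hf' ν)) ?_
    filter_upwards [hν.1.supp] with p hp
    have h2 : A ≤ L p := hB p.1 p.2 hp
    have h3 := (abs_le.1 (hC p.1)).1
    linarith
  refine hle.trans (le_of_eq ?_)
  rw [hbeta]
  have e1 : (fun p : B × E N => L p + (f p.1 + s * g p.1))
      = fun p => (L p + f p.1) + s * g p.1 := by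
    funext p; ring
  have i1 : Integrable (fun p : B × E N => L p + f p.1) μ := hA.2.1.add (int_f f hf μ)
  have i2 : Integrable (fun p : B × E N => s * g p.1) μ := (int_f g hg μ).const_mul s
  rw [e1, integral_add i1 i2, integral_const_mul]


end Xbmin

alias betaM_eq_of_min := Xbmin.betaM_eq_of_min

end Pool.Agent.Helper823.ManeG
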