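import Pool.Agent.Helper823.ManeG.Defs
import Pool.Agent.Helper823.ManeG.Xbconv
import Pool.Agent.Helper823.ManeG.Xbconc

set_option autoImplicit false
open MeasureTheory Set Topology

namespace Pool.Agent.Helper823.ManeG
namespace Xclosed







/-! TARGET: prove this one -/
theorem badM_closed {B : Type} [MetricSpace B] [CompactSpace B] [MeasurableSpace B] [BorelSpace B]
    {N d : ℕ} (D : Data B N d) (hex : HasClosed D)
    (L : B × E N → ℝ) (hL : NiceM D L) (f g : B → ℝ)
    (hf : Continuous f) (hg : Continuous g) (ε : ℝ) : IsClosed {h : E d | ¬ GoodM D L g f ε h} := by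
  have hc : ∀ F : B → ℝ, Continuous F → Continuous (fun h : E d => betaM D L F h) := by
    intro F hF
    have h1 := (betaM_convex D hex L hL F hF).continuousOn isOpen_univ
    exact continuousOn_univ.1 h1
  have hopen : IsOpen {h : E d | GoodM D L g f ε h} := by
    have heq : {h : E d | GoodM D L g f ε h} = ⋃ δ : {d : ℝ // d > 0},
        {h : E d | -(ε * δ.1) < betaM D L (fun x => f x + δ.1 * g x) h
          + betaM D L (fun x => f x + (-δ.1) * g x) h - 2 * betaM D L f h} := by
      ext h
      simp only [Set.mem_setOf_eq, Set.mem_iUnion, GoodM]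
      constructor
      · rintro ⟨δ, hδ, h2⟩
        exact ⟨⟨δ, hδ⟩, h2⟩
      · rintro ⟨⟨δ, hδ⟩, h2⟩
        exact ⟨δ, hδ, h2⟩
    rw [heq]
    refine isOpen_iUnion (fun δ => ?_)
    refine isOpen_lt continuous_const ?_
    exact ((hc _ (by fun_prop)).add (hc _ (by fun_prop))).sub (continuous_const.mul (hc _ hf))
  exact isOpen_compl_iff.1 (by
    have : {h : E d | ¬ GoodM D L g f ε h}ᶜ = {h : E d | GoodM D L g f ε h} := by
      ext h; simp
    rw [this]; exact hopen)


end Xclosed

alias badM_closed := Xclosed.badM_closed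

end Pool.Agent.Helper823.ManeG
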