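import Pool.Agent.Helper823.ManeG.Defs
import Pool.Agent.Helper823.ManeG.X0

set_option autoImplicit false
open MeasureTheory Set Topology

namespace Pool.Agent.Helper823.ManeG
namespace XcoverD







/-! TARGET: prove this one -/
theorem small_coverD {d : ℕ} (K : Set (E d)) (hK : IsCompact K)
    (h0 : NullSet d K) (η : ℝ) (hη : 0 < η) :
    ∃ F : Finset (E d × ℝ), (∀ b ∈ F, 0 < b.2) ∧
      ∑ b ∈ F, b.2 ^ (d - 2) < η ∧ ∀ x ∈ K, ∃ b ∈ F, ‖x - b.1‖ < b.2 := by
  rcases le_or_gt 2 d with hd | hd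
  · exact small_cover hd K hK (h0.2 hd) η hη
  · have hKe : K = ∅ := h0.1 hd.le
    refine ⟨∅, by simp, by simpa using hη, ?_⟩
    intro x hx
    rw [hKe] at hx
    exact absurd hx (Set.notMem_empty x)

theorem nullSet_of_small_cover {d : ℕ} (S : Set (E d))
    (h : ∀ j : ℕ, ∃ F : Finset (E d × ℝ), (∀ b ∈ F, 0 < b.2) ∧
      ∑ b ∈ F, b.2 ^ (d - 2) < 1 / ((j : ℝ) + 1) ∧ ∀ x ∈ S, ∃ b ∈ F, ‖x - b.1‖ < b.2) :
    NullSet d S := by
  refine ⟨fun hd => ?_, fun hd => null_of_small_cover hd S h⟩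
  obtain ⟨F, h1, h2, h3⟩ := h 0
  have he : d - 2 = 0 := by omega
  rw [he] at h2
  have h4 : (F.card : ℝ) < 1 := by simpa using h2
  have h5 : F.card < 1 := by exact_mod_cast h4
  have h6 : F = ∅ := by
    rw [← Finset.card_eq_zero]
    omega
  rw [Set.eq_empty_iff_forall_notMem]
  intro x hx
  obtain ⟨b, hb, _⟩ := h3 x hx
  rw [h6] at hb
  exact absurd hb (Finset.notMem_empty b)

theorem nullSet_mono {d : ℕ} {S S' : Set (E d)} (h : S ⊆ S') (h' : NullSet d S') :
    NullSet d S := by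
  refine ⟨fun hd => ?_, fun hd => measure_mono_null h (h'.2 hd)⟩
  have h1 := h'.1 hd
  rw [h1] at h
  exact Set.subset_empty_iff.mp h

theorem nullSet_iUnion {d : ℕ} (S : ℕ → Set (E d)) (h : ∀ i, NullSet d (S i)) :
    NullSet d (⋃ i, S i) := by
  refine ⟨fun hd => ?_, fun hd => measure_iUnion_null fun i => (h i).2 hd⟩
  rw [Set.iUnion_eq_empty]
  exact fun i => (h i).1 hd


end XcoverD

alias small_coverD := XcoverD.small_coverD
alias nullSet_of_small_cover := XcoverD.nullSet_of_small_cover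
alias nullSet_mono := XcoverD.nullSet_mono
alias nullSet_iUnion := XcoverD.nullSet_iUnion

end Pool.Agent.Helper823.ManeG
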