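import Pool.Agent.Helper823.ManeG.Defs
import Pool.Agent.Helper823.ManeG.Xexadm

set_option autoImplicit false
open MeasureTheory Set Topology

namespace Pool.Agent.Helper823.ManeG
namespace Xexmin





open Filter in
theorem lsc_aux36261 {B : Type} [MetricSpace B] [CompactSpace B] [MeasurableSpace B] [BorelSpace B] {N : ℕ} {μs : ℕ → ProbabilityMeasure (B × E N)} {μ : ProbabilityMeasure (B × E N)}
    (hμ : Tendsto μs atTop (𝓝 μ)) (g : B × E N → ℝ) (hg : Continuous g) (h0 : ∀ p, 0 ≤ g p)
    (hi : ∀ j, Integrable g (μs j : Measure (B × E N))) (c : ℝ)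
    (hc : Tendsto (fun j => ∫ p, g p ∂(μs j : Measure (B × E N))) atTop (𝓝 c)) :
    Integrable g (μ : Measure (B × E N)) ∧ ∫ p, g p ∂(μ : Measure (B × E N)) ≤ c := by
  have h1 := lintegral_le_liminf_lintegral_of_forall_isOpen_measure_le_liminf_measure
    (μ := (μ : Measure (B × E N))) (μs := fun j => (μs j : Measure (B × E N))) hg (fun p => h0 p)
    (fun G hG => ProbabilityMeasure.le_liminf_measure_open_of_tendsto hμ hG)
  have h2 : Tendsto (fun j => ∫⁻ p, ENNReal.ofReal (g p) ∂(μs j : Measure (B × E N))) atTop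
      (𝓝 (ENNReal.ofReal c)) := by
    have := (ENNReal.continuous_ofReal.tendsto c).comp hc
    refine this.congr (fun j => ?_)
    exact ofReal_integral_eq_lintegral_ofReal (hi j) (Eventually.of_forall h0)
  rw [h2.liminf_eq] at h1
  have h3 : Integrable g (μ : Measure (B × E N)) := by
    refine ⟨hg.aestronglyMeasurable, ?_⟩
    rw [hasFiniteIntegral_iff_ofReal (Eventually.of_forall h0)]
    exact h1.trans_lt ENNReal.ofReal_lt_top
  refine ⟨h3, ?_⟩
  have hc0 : 0 ≤ c := ge_of_tendsto' hc (fun j => integral_nonneg h0)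
  rw [← ofReal_integral_eq_lintegral_ofReal h3 (Eventually.of_forall h0)] at h1
  exact (ENNReal.ofReal_le_ofReal_iff hc0).1 h1

open Filter in
theorem tight_aux36261 {B : Type} [MetricSpace B] [CompactSpace B] [MeasurableSpace B] [BorelSpace B] {N : ℕ} (μs : ℕ → ProbabilityMeasure (B × E N)) (C : ℝ)
    (hi : ∀ j, Integrable (fun p : B × E N => ‖p.2‖) (μs j : Measure (B × E N)))
    (hC : ∀ j, ∫ p : B × E N, ‖p.2‖ ∂(μs j : Measure (B × E N)) ≤ C) :
    IsTightMeasureSet {((μ : ProbabilityMeasure (B × E N)) : Measure (B × E N)) | μ ∈ Set.range μs} := by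
  rw [isTightMeasureSet_iff_exists_isCompact_measure_compl_le]
  intro ε hε
  set δ : ℝ := (min ε 1).toReal with hδ
  have hm : min ε 1 ≠ ⊤ := ne_top_of_le_ne_top ENNReal.one_ne_top (min_le_right _ _)
  have hδ0 : 0 < δ := ENNReal.toReal_pos (lt_min hε one_pos).ne' hm
  have hδε : ENNReal.ofReal δ ≤ ε := by
    rw [hδ, ENNReal.ofReal_toReal hm]
    exact min_le_left _ _
  set R : ℝ := (|C| + 1) / δ with hR
  have hR0 : 0 < R := by positivity
  refine ⟨Set.univ ×ˢ Metric.closedBall (0 : E N) R, isCompact_univ.prod (isCompact_closedBall _ _), ?_⟩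
  rintro _ ⟨ν, ⟨j, rfl⟩, rfl⟩
  have hmk := mul_meas_ge_le_integral_of_nonneg (μ := (μs j : Measure (B × E N)))
    (f := fun p : B × E N => ‖p.2‖) (Eventually.of_forall fun p => norm_nonneg _) (hi j) R
  have h1 : ((μs j : Measure (B × E N))).real {p : B × E N | R ≤ ‖p.2‖} ≤ δ := by
    have h2 : R * ((μs j : Measure (B × E N))).real {p : B × E N | R ≤ ‖p.2‖} ≤ R * δ := by
      have : R * δ = |C| + 1 := by rw [hR]; field_simp
      rw [this]
      exact (hmk.trans (hC j)).trans (by linarith [le_abs_self C])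
    exact le_of_mul_le_mul_left h2 hR0
  calc ((μs j : Measure (B × E N))) (Set.univ ×ˢ Metric.closedBall (0 : E N) R)ᶜ
      ≤ ((μs j : Measure (B × E N))) {p : B × E N | R ≤ ‖p.2‖} := by
        apply measure_mono
        intro p hp
        simp only [Set.mem_compl_iff, Set.mem_prod, Set.mem_univ, true_and, Metric.mem_closedBall,
          dist_zero_right, not_le] at hp
        exact hp.le
    _ = ENNReal.ofReal (((μs j : Measure (B × E N))).real {p : B × E N | R ≤ ‖p.2‖}) := by
        rw [measureReal_def, ENNReal.ofReal_toReal (measure_ne_top _ _)]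
    _ ≤ ENNReal.ofReal δ := ENNReal.ofReal_le_ofReal h1
    _ ≤ ε := hδε

theorem int1_36261 {B : Type} [MetricSpace B] [CompactSpace B] [MeasurableSpace B] [BorelSpace B] {N : ℕ} (ν : Measure (B × E N)) [IsProbabilityMeasure ν] (g : B × E N → ℝ)
    (hg : Integrable g ν) (c : ℝ) : ∫ p, (g p + c) ∂ν = ∫ p, g p ∂ν + c := by
  rw [integral_add hg (integrable_const c)]
  simp

theorem int3_36261 {B : Type} [MetricSpace B] [CompactSpace B] [MeasurableSpace B] [BorelSpace B] {N : ℕ} (ν : Measure (B × E N)) [IsProbabilityMeasure ν] (g f : B × E N → ℝ)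
    (hg : Integrable g ν) (hf : Integrable f ν) (c A : ℝ) :
    ∫ p, (g p + c + A * f p) ∂ν = ∫ p, g p ∂ν + c + A * ∫ p, f p ∂ν := by
  have h1 : Integrable (fun p => g p + c) ν := hg.add (integrable_const c)
  have h2 : Integrable (fun p => A * f p) ν := hf.const_mul A
  rw [integral_add h1 h2, int1_36261 ν g hg c, integral_const_mul]

open Filter in
theorem lscK_36261 {B : Type} [MetricSpace B] [CompactSpace B] [MeasurableSpace B] [BorelSpace B] {N : ℕ}
    {μs : ℕ → ProbabilityMeasure (B × E N)} {μ : ProbabilityMeasure (B × E N)}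
    (hμ : Tendsto μs atTop (𝓝 μ)) (K : Set (B × E N))
    (hKs : ∀ j, ∀ᵐ p ∂(μs j : Measure (B × E N)), p ∈ K)
    (hKμ : ∀ᵐ p ∂(μ : Measure (B × E N)), p ∈ K)
    (g : B × E N → ℝ) (hg : Continuous g) (h0 : ∀ p ∈ K, 0 ≤ g p)
    (hi : ∀ j, Integrable g (μs j : Measure (B × E N))) (c : ℝ)
    (hc : Tendsto (fun j => ∫ p, g p ∂(μs j : Measure (B × E N))) atTop (𝓝 c)) :
    Integrable g (μ : Measure (B × E N)) ∧ ∫ p, g p ∂(μ : Measure (B × E N)) ≤ c := by
  have e1 : ∀ j, g =ᵐ[(μs j : Measure (B × E N))] fun p => max (g p) 0 := by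
    intro j
    filter_upwards [hKs j] with p hp
    exact (max_eq_left (h0 p hp)).symm
  have e2 : g =ᵐ[(μ : Measure (B × E N))] fun p => max (g p) 0 := by
    filter_upwards [hKμ] with p hp
    exact (max_eq_left (h0 p hp)).symm
  have h := lsc_aux36261 hμ (fun p => max (g p) 0) (hg.max continuous_const)
    (fun p => le_max_right _ _) (fun j => (hi j).congr (e1 j)) c
    (by
      refine hc.congr (fun j => ?_)
      exact integral_congr_ae (e1 j))
  exact ⟨h.1.congr e2.symm, (integral_congr_ae e2).trans_le h.2⟩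

/-! TARGET: prove this one -/
open Filter in
theorem existsM_minimizing {B : Type} [MetricSpace B] [CompactSpace B] [MeasurableSpace B] [BorelSpace B]
    {N d : ℕ} (D : Data B N d) (hex : HasClosed D)
    (L : B × E N → ℝ) (hL : NiceM D L) (h : E d) :
    ∃ μ, IsMinM D L h μ := by
  classical
  set KS : Set (B × E N) := {p | p.2 ∈ D.T p.1} with hKS
  have hKcl : IsClosed KS := D.closedT
  obtain ⟨B0, hB0⟩ := hL.bdd
  obtain ⟨B1, hB, hBL⟩ : ∃ B1 : ℝ, B1 ≤ 0 ∧ ∀ p ∈ KS, B1 ≤ L p :=
    ⟨min B0 0, min_le_right _ _, fun p hp => (min_le_left _ _).trans (hB0 p.1 p.2 hp)⟩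
  obtain ⟨R0, hR0⟩ := hL.superlinear 1
  have hv : ∀ p ∈ KS, ‖p.2‖ ≤ max R0 0 + (L p - B1) := by
    intro p hpK
    by_cases hp : R0 ≤ ‖p.2‖
    · have h1 := hR0 p.1 p.2 hpK hp
      have h2 : (0 : ℝ) ≤ max R0 0 := le_max_right _ _
      have h3 : L (p.1, p.2) = L p := rfl
      linarith
    · have h1 := hBL p hpK
      have h2 : R0 ≤ max R0 0 := le_max_left _ _
      push Not at hp
      linarith
  have hcont := hL.cont
  have hlow : ∀ μ : Measure (B × E N), AdmM D L h μ → B1 ≤ ∫ p, L p ∂μ := by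
    intro μ hμ
    haveI := hμ.1.prob
    calc B1 = ∫ _p : B × E N, B1 ∂μ := by simp
      _ ≤ ∫ p, L p ∂μ := by
        apply integral_mono_ae (integrable_const _) hμ.2.1
        filter_upwards [hμ.1.supp] with p hp
        exact hBL p hp
  set S : Set ℝ := {a | ∃ μ : Measure (B × E N), AdmM D L h μ ∧ a = ∫ p, L p ∂μ} with hS
  have hSne : S.Nonempty := by
    obtain ⟨μ, hμ⟩ := exists_admM D hex L hcont h
    exact ⟨_, μ, hμ, rfl⟩
  have hSb : BddBelow S := by
    refine ⟨B1, ?_⟩
    rintro _ ⟨μ, hμ, rfl⟩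
    exact hlow μ hμ
  obtain ⟨a, ha1, ha2, ha3⟩ := exists_seq_tendsto_sInf hSne hSb
  choose μs hadm hval using ha3
  set I := sInf S with hI
  let P : ℕ → ProbabilityMeasure (B × E N) := fun j => ⟨μs j, (hadm j).1.prob⟩
  have hPi : ∀ j, Integrable (fun p : B × E N => ‖p.2‖) (P j : Measure (B × E N)) :=
    fun j => (hadm j).1.moment
  have hPL : ∀ j, Integrable L (P j : Measure (B × E N)) := fun j => (hadm j).2.1
  have hPK : ∀ j, ∀ᵐ p ∂(P j : Measure (B × E N)), p ∈ KS := fun j => (hadm j).1.supp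
  have hPa : ∀ j, ∫ p, L p ∂(P j : Measure (B × E N)) = a j := fun j => (hval j).symm
  have hPC : ∀ j, ∫ p : B × E N, ‖p.2‖ ∂(P j : Measure (B × E N)) ≤ max R0 0 + (a 0 - B1) := by
    intro j
    calc ∫ p : B × E N, ‖p.2‖ ∂(P j : Measure (B × E N))
        ≤ ∫ p : B × E N, (max R0 0 + (L p - B1)) ∂(P j : Measure (B × E N)) := by
          apply integral_mono_ae (hPi j) ((integrable_const _).add ((hPL j).sub (integrable_const _)))
          filter_upwards [hPK j] with p hp
          exact hv p hp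
      _ = max R0 0 + (a j - B1) := by
          have h1 := int1_36261 (P j : Measure (B × E N)) L (hPL j) (max R0 0 - B1)
          rw [hPa] at h1
          have h2 : (fun p : B × E N => max R0 0 + (L p - B1)) = fun p => L p + (max R0 0 - B1) := by
            funext p; ring
          rw [h2, h1]; ring
      _ ≤ max R0 0 + (a 0 - B1) := by
          have := ha1 (Nat.zero_le j)
          linarith
  have htight := tight_aux36261 P _ hPi hPC
  have hcomp := isCompact_closure_of_isTightMeasureSet htight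
  obtain ⟨μ, -, φ, hφ, hlim⟩ := hcomp.tendsto_subseq (x := P)
    (fun j => subset_closure (Set.mem_range_self j))
  have haφ : Tendsto (fun j => a (φ j)) atTop (𝓝 I) := ha2.comp hφ.tendsto_atTop
  have hPKφ : ∀ j, ∀ᵐ p ∂((P ∘ φ) j : Measure (B × E N)), p ∈ KS := fun j => hPK (φ j)
  have hμK : ∀ᵐ p ∂(μ : Measure (B × E N)), p ∈ KS := by
    have h1 := ProbabilityMeasure.le_liminf_measure_open_of_tendsto hlim hKcl.isOpen_compl
    have h2 : ∀ j, ((P ∘ φ) j : Measure (B × E N)) KSᶜ = 0 := fun j => (ae_iff.1 (hPKφ j))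
    simp only [h2] at h1
    rw [liminf_const] at h1
    rw [ae_iff]
    exact le_antisymm h1 bot_le
  -- L is integrable, with integral at most I
  have hL0 : Integrable (fun p => L p - B1) (μ : Measure (B × E N)) ∧
      ∫ p, (L p - B1) ∂(μ : Measure (B × E N)) ≤ I - B1 := by
    apply lscK_36261 hlim KS hPKφ hμK (fun p => L p - B1) (hcont.sub continuous_const)
      (fun p hp => sub_nonneg.2 (hBL p hp)) (fun j => (hPL (φ j)).sub (integrable_const _))
    have : ∀ j, ∫ p, (L p - B1) ∂((P ∘ φ) j : Measure (B × E N)) = a (φ j) - B1 := by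
      intro j
      show ∫ p, (L p - B1) ∂(P (φ j) : Measure (B × E N)) = a (φ j) - B1
      rw [integral_sub (hPL (φ j)) (integrable_const _), hPa]
      simp
    simp only [this]
    exact haφ.sub_const B1
  have hLi : Integrable L (μ : Measure (B × E N)) := by
    have := hL0.1.add (integrable_const B1)
    refine this.congr (Eventually.of_forall fun p => ?_)
    simp
  have hLle : ∫ p, L p ∂(μ : Measure (B × E N)) ≤ I := by
    have := hL0.2
    rw [integral_sub hLi (integrable_const _)] at this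
    simp at this
    exact this
  have key : ∀ (b : B → ℝ) (c : B → E N), Continuous b → Continuous c → ∀ f0 : ℝ,
      (∀ j, ∫ p : B × E N, (b p.1 + inner ℝ (c p.1) p.2) ∂(P j : Measure (B × E N)) = f0) →
      Integrable (fun p : B × E N => b p.1 + inner ℝ (c p.1) p.2) (μ : Measure (B × E N)) ∧
      ∫ p : B × E N, (b p.1 + inner ℝ (c p.1) p.2) ∂(μ : Measure (B × E N)) = f0 := by
    intro b c hb hc f0 hf0
    obtain ⟨K1, hK1⟩ := isCompact_univ.exists_bound_of_continuousOn hb.continuousOn
    obtain ⟨K2, hK2⟩ := isCompact_univ.exists_bound_of_continuousOn hc.continuousOn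
    set K : ℝ := max (max K1 K2) 0 with hK
    have hK0 : 0 ≤ K := le_max_right _ _
    have hbK : ∀ x, |b x| ≤ K := fun x =>
      (hK1 x (Set.mem_univ _)).trans ((le_max_left _ _).trans (le_max_left _ _))
    have hcK : ∀ x, ‖c x‖ ≤ K := fun x =>
      (hK2 x (Set.mem_univ _)).trans ((le_max_right _ _).trans (le_max_left _ _))
    set F : B × E N → ℝ := fun p => b p.1 + inner ℝ (c p.1) p.2 with hF
    have hFc : Continuous F := by
      exact (hb.comp continuous_fst).add ((hc.comp continuous_fst).inner continuous_snd)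
    have hFb : ∀ p, |F p| ≤ K * (1 + ‖p.2‖) := by
      intro p
      have h1 : |inner ℝ (c p.1) p.2| ≤ ‖c p.1‖ * ‖p.2‖ := abs_real_inner_le_norm _ _
      have h2 : ‖c p.1‖ * ‖p.2‖ ≤ K * ‖p.2‖ := mul_le_mul_of_nonneg_right (hcK _) (norm_nonneg _)
      calc |F p| ≤ |b p.1| + |inner ℝ (c p.1) p.2| := abs_add_le _ _
        _ ≤ K + K * ‖p.2‖ := add_le_add (hbK _) (h1.trans h2)
        _ = K * (1 + ‖p.2‖) := by ring
    have hFi : ∀ j, Integrable F (P j : Measure (B × E N)) := by
      intro j
      refine Integrable.mono' (((integrable_const (1 : ℝ)).add (hPi j)).const_mul K)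
        hFc.aestronglyMeasurable (Eventually.of_forall fun p => ?_)
      rw [Real.norm_eq_abs]
      exact hFb p
    have main : ∀ A : ℝ, ∃ C : ℝ,
        Integrable (fun p => L p + C + A * F p) (μ : Measure (B × E N)) ∧
        ∫ p, (L p + C + A * F p) ∂(μ : Measure (B × E N)) ≤ I + C + A * f0 := by
      intro A
      obtain ⟨R, hR⟩ := hL.superlinear (|A| * K)
      set R' := max R 0 with hR'
      have hR'0 : 0 ≤ R' := le_max_right _ _
      have hAK : 0 ≤ |A| * K := by positivity
      refine ⟨|A| * K * (1 + R') - B1, ?_⟩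
      have hpos : ∀ p ∈ KS, 0 ≤ L p + (|A| * K * (1 + R') - B1) + A * F p := by
        intro p hpK
        have h1 : |A * F p| ≤ |A| * K * (1 + ‖p.2‖) := by
          rw [abs_mul, mul_assoc]
          exact mul_le_mul_of_nonneg_left (hFb p) (abs_nonneg _)
        have h2 := (abs_le.1 h1).1
        by_cases hp : R ≤ ‖p.2‖
        · have h3 := hR p.1 p.2 hpK hp
          have h4 : L (p.1, p.2) = L p := rfl
          rw [h4] at h3
          have h5 : 0 ≤ |A| * K * R' := mul_nonneg hAK hR'0
          nlinarith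
        · push Not at hp
          have h3 := hBL p hpK
          have h4 : ‖p.2‖ ≤ R' := hp.le.trans (le_max_left _ _)
          have h5 : |A| * K * ‖p.2‖ ≤ |A| * K * R' := mul_le_mul_of_nonneg_left h4 hAK
          nlinarith
      apply lscK_36261 hlim KS hPKφ hμK (fun p => L p + (|A| * K * (1 + R') - B1) + A * F p)
        ((hcont.add continuous_const).add (continuous_const.mul hFc)) hpos
        (fun j => ((hPL (φ j)).add (integrable_const _)).add ((hFi (φ j)).const_mul A))
      have : ∀ j, ∫ p, (L p + (|A| * K * (1 + R') - B1) + A * F p) ∂((P ∘ φ) j : Measure (B × E N)) =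
          a (φ j) + (|A| * K * (1 + R') - B1) + A * f0 := by
        intro j
        show ∫ p, (L p + (|A| * K * (1 + R') - B1) + A * F p) ∂(P (φ j) : Measure (B × E N)) = _
        rw [int3_36261 _ L F (hPL (φ j)) (hFi (φ j)), hPa, hf0]
      simp only [this]
      exact (haφ.add_const _).add_const _
    have hFμ : Integrable F (μ : Measure (B × E N)) := by
      obtain ⟨C, hC, -⟩ := main 1
      have := (hC.sub hLi).sub (integrable_const C)
      refine this.congr (Eventually.of_forall fun p => ?_)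
      simp only [Pi.sub_apply]
      ring
    refine ⟨hFμ, ?_⟩
    have hall : ∀ A : ℝ, A * (∫ p, F p ∂(μ : Measure (B × E N)) - f0) ≤
        I - ∫ p, L p ∂(μ : Measure (B × E N)) := by
      intro A
      obtain ⟨C, hC1, hC⟩ := main A
      rw [int3_36261 _ L F hLi hFμ] at hC
      linarith
    by_contra hne
    have hd : (∫ p, F p ∂(μ : Measure (B × E N)) - f0) ≠ 0 := sub_ne_zero.2 hne
    have h1 := hall ((|I - ∫ p, L p ∂(μ : Measure (B × E N))| + 1) /
      (∫ p, F p ∂(μ : Measure (B × E N)) - f0))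
    rw [div_mul_cancel₀ _ hd] at h1
    linarith [le_abs_self (I - ∫ p, L p ∂(μ : Measure (B × E N)))]
  have hmom : Integrable (fun p : B × E N => ‖p.2‖) (μ : Measure (B × E N)) := by
    refine Integrable.mono' ((integrable_const (max R0 0)).add (hLi.sub (integrable_const B1)))
      (continuous_snd.norm.aestronglyMeasurable) ?_
    filter_upwards [hμK] with p hp
    rw [norm_norm]
    exact hv p hp
  have hadmμ : AdmM D L h (μ : Measure (B × E N)) := by
    refine ⟨⟨inferInstance, hμK, hmom, ?_⟩, hLi, ?_⟩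
    · intro q hq
      obtain ⟨hc1, hc2⟩ := D.test_cont q hq
      exact (key q.2 q.1 hc2 hc1 0 (fun j => (hadm j).1.closed q hq)).2
    · ext i
      have h1 := (key (fun _ => 0) (D.form i) continuous_const (D.form_cont i)
        (h i) (fun j => by
          simp only [zero_add]
          have h2 : rotM D (P j : Measure (B × E N)) = h := (hadm j).2.2
          have h3 := congrArg (fun w : E d => w i) h2
          exact h3)).2
      simp only [zero_add] at h1
      exact h1
  refine ⟨μ, hadmμ, ?_⟩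
  intro ν hν
  exact hLle.trans (csInf_le hSb ⟨ν, hν, rfl⟩)


end Xexmin

alias existsM_minimizing := Xexmin.existsM_minimizing

end Pool.Agent.Helper823.ManeG
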