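import Pool.Agent.Helper823.ManeG.Defs

set_option autoImplicit false
open MeasureTheory Set Topology

namespace Pool.Agent.Helper823.ManeG
namespace Xnice


/-! TARGET: prove this one -/
theorem nice_addM {B : Type} [MetricSpace B] [CompactSpace B] [MeasurableSpace B] [BorelSpace B]
    {N d : ℕ} (D : Data B N d)
    (L : B × E N → ℝ) (hL : NiceM D L) (f : B → ℝ) (hf : Continuous f) :
    NiceM D (fun p => L p + f p.1) := by
  obtain ⟨C, hC⟩ := isCompact_univ.exists_bound_of_continuousOn hf.continuousOn
  have hCx : ∀ x : B, -|C| ≤ f x := by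
    intro x
    have h1 := hC x (Set.mem_univ _)
    rw [Real.norm_eq_abs] at h1
    have h2 := neg_abs_le (f x)
    have h3 := le_abs_self C
    linarith
  refine ⟨hL.cont.add (hf.comp continuous_fst), ?_, ?_, ?_⟩
  · obtain ⟨A, hA⟩ := hL.bdd
    refine ⟨A - |C|, fun x v hv => ?_⟩
    have h1 := hA x v hv
    have h2 := hCx x
    show A - |C| ≤ L (x, v) + f x
    linarith
  · intro x
    exact (hL.convex x).add_convexOn (convexOn_const (f x) (hL.convex x).1)
  · intro A
    obtain ⟨R, hR⟩ := hL.superlinear (A + |C|)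
    refine ⟨max R 1, fun x v hv hRv => ?_⟩
    have h1 := hR x v hv ((le_max_left _ _).trans hRv)
    have h2 : 1 ≤ ‖v‖ := (le_max_right _ _).trans hRv
    have h3 := hCx x
    have h4 := abs_nonneg C
    show A * ‖v‖ ≤ L (x, v) + f x
    nlinarith


end Xnice

alias nice_addM := Xnice.nice_addM

end Pool.Agent.Helper823.ManeG
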