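import Pool.Agent.Helper823.ManeG.Defs
import Pool.Agent.Helper823.ManeG.Xbconv
import Pool.Agent.Helper823.ManeG.Xblip

set_option autoImplicit false
open MeasureTheory Set Topology

namespace Pool.Agent.Helper823.ManeG
namespace Xopen







/-! TARGET: prove this one -/
theorem goodM_open {B : Type} [MetricSpace B] [CompactSpace B] [MeasurableSpace B] [BorelSpace B]
    {N d : ℕ} (D : Data B N d) (hex : HasClosed D)
    (L : B × E N → ℝ) (hL : NiceM D L) (f g : B → ℝ)
    (hf : Continuous f) (hg : Continuous g) (K : Set (E d)) (hK : IsCompact K) (ε : ℝ)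
    (hgood : ∀ h ∈ K, GoodM D L g f ε h) :
    ∃ η > 0, ∀ f' : B → ℝ, Continuous f' → (∀ x, |f x - f' x| < η) →
      ∀ h ∈ K, GoodM D L g f' ε h := by
  have hcontb : ∀ u : B → ℝ, Continuous u → Continuous (betaM D L u) := fun u hu =>
    (betaM_convex D hex L hL u hu).locallyLipschitz.continuous
  refine hK.induction_on
      (p := fun S : Set (E d) => ∃ η > 0, ∀ f' : B → ℝ, Continuous f' →
        (∀ x, |f x - f' x| < η) → ∀ h ∈ S, GoodM D L g f' ε h) ?_ ?_ ?_ ?_
  · exact ⟨1, one_pos, fun f' _ _ h hh => absurd hh (Set.notMem_empty h)⟩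
  · rintro s t hst ⟨η, hη, H⟩
    exact ⟨η, hη, fun f' h1 h2 h hh => H f' h1 h2 h (hst hh)⟩
  · rintro s t ⟨η, hη, H⟩ ⟨η', hη', H'⟩
    refine ⟨min η η', lt_min hη hη', fun f' h1 h2 h hh => ?_⟩
    rcases hh with hh | hh
    · exact H f' h1 (fun x => (h2 x).trans_le (min_le_left _ _)) h hh
    · exact H' f' h1 (fun x => (h2 x).trans_le (min_le_right _ _)) h hh
  · intro h0 hh0
    obtain ⟨δ, hδ, hlt⟩ := hgood h0 hh0
    set Φ : E d → ℝ := fun h => betaM D L (fun x => f x + δ * g x) h
      + betaM D L (fun x => f x + (-δ) * g x) h - 2 * betaM D L f h + ε * δ with hΦ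
    have c1 : Continuous (fun x => f x + δ * g x) := hf.add (continuous_const.mul hg)
    have c2 : Continuous (fun x => f x + (-δ) * g x) := hf.add (continuous_const.mul hg)
    have hΦc : Continuous Φ :=
      (((hcontb _ c1).add (hcontb _ c2)).sub (continuous_const.mul (hcontb _ hf))).add
        continuous_const
    have hΦ0 : 0 < Φ h0 := by
      simp only [hΦ]
      linarith
    have hU : {h : E d | Φ h0 / 2 < Φ h} ∈ 𝓝 h0 :=
      (isOpen_lt continuous_const hΦc).mem_nhds (by show Φ h0 / 2 < Φ h0; linarith)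
    refine ⟨{h : E d | Φ h0 / 2 < Φ h}, mem_nhdsWithin_of_mem_nhds hU, Φ h0 / 8, by linarith, ?_⟩
    intro f' hf' hff h hh
    refine ⟨δ, hδ, ?_⟩
    have hh' : Φ h0 / 2 < Φ h := hh
    have c1' : Continuous (fun x => f' x + δ * g x) := hf'.add (continuous_const.mul hg)
    have c2' : Continuous (fun x => f' x + (-δ) * g x) := hf'.add (continuous_const.mul hg)
    have b1 := betaM_lip D hex L hL _ _ c1 c1' (Φ h0 / 8) (by linarith) h (fun x => by
      have := (hff x).le
      rwa [show f x + δ * g x - (f' x + δ * g x) = f x - f' x by ring])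
    have b2 := betaM_lip D hex L hL _ _ c2 c2' (Φ h0 / 8) (by linarith) h (fun x => by
      have := (hff x).le
      rwa [show f x + (-δ) * g x - (f' x + (-δ) * g x) = f x - f' x by ring])
    have b3 := betaM_lip D hex L hL _ _ hf hf' (Φ h0 / 8) (by linarith) h (fun x => (hff x).le)
    rw [abs_le] at b1 b2 b3
    have e1 : Φ h = betaM D L (fun x => f x + δ * g x) h
      + betaM D L (fun x => f x + (-δ) * g x) h - 2 * betaM D L f h + ε * δ := rfl
    rw [e1] at hh'
    linarith [b1.1, b1.2, b2.1, b2.2, b3.1, b3.2]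



end Xopen

alias goodM_open := Xopen.goodM_open

end Pool.Agent.Helper823.ManeG
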