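import Pool.Agent.Helper823.ManeG.Defs
import Pool.Agent.Helper823.ManeG.X0

set_option autoImplicit false
open MeasureTheory Set Topology

namespace Pool.Agent.Helper823.ManeG
namespace XsaddleD





/-! TARGET: prove this one -/
theorem empty_of_hausdorff0 {X : Type*} [EMetricSpace X] [MeasurableSpace X] [BorelSpace X]
    {S : Set X} (h : μH[(0:ℝ)] S = 0) : S = ∅ := by
  by_contra hne
  have h1 := Measure.one_le_hausdorffMeasure_zero_of_nonempty (Set.nonempty_iff_ne_empty.2 hne)
  rw [h] at h1
  exact absurd h1 (by simp)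

theorem saddle_ae_null {d : ℕ} (H : ℝ → E d → ℝ)
    (hs : ∀ h, ConcaveOn ℝ Set.univ (fun s => H s h))
    (hh : ∀ s, ConvexOn ℝ Set.univ (H s)) :
    ∀ᵐ s : ℝ, NullSet d {h | ¬ DifferentiableAt ℝ (fun s' => H s' h) s} := by
  by_cases hd : 2 ≤ d
  · filter_upwards [saddle_ae hd H hs hh] with s hs'
    refine ⟨fun h2 => ?_, fun _ => hs'⟩
    obtain rfl : d = 2 := le_antisymm h2 hd
    have h0 : ((2:ℕ):ℝ) - 2 = 0 := by norm_num
    rw [h0] at hs'
    exact empty_of_hausdorff0 hs'
  · have hd2 : d ≤ 2 := by omega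
    let p : E 2 →ₗ[ℝ] E d :=
      { toFun := fun h => WithLp.toLp 2 (fun i : Fin d => h (Fin.castLE hd2 i))
        map_add' := by intro x y; ext i; simp
        map_smul' := by intro c x; ext i; simp }
    have hsurj : ∀ x : E d, ∃ h : E 2, p h = x := by
      intro x
      refine ⟨WithLp.toLp 2 (fun i : Fin 2 => if hi : (i : ℕ) < d then x ⟨i, hi⟩ else 0), ?_⟩
      ext i
      simp [p]
    have key := saddle_ae (n := 2) le_rfl (fun s h => H s (p h)) (fun h => hs (p h))
      (fun s => by
        have := (hh s).comp_linearMap p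
        rw [Set.preimage_univ] at this
        exact this)
    filter_upwards [key] with s hs'
    have h0 : ((2:ℕ):ℝ) - 2 = 0 := by norm_num
    rw [h0] at hs'
    have hemp := empty_of_hausdorff0 hs'
    refine ⟨fun _ => ?_, fun h2 => absurd h2 hd⟩
    rw [Set.eq_empty_iff_forall_notMem] at hemp ⊢
    intro x hx
    obtain ⟨h, rfl⟩ := hsurj x
    exact hemp h hx


end XsaddleD

alias saddle_ae_null := XsaddleD.saddle_ae_null

end Pool.Agent.Helper823.ManeG
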