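import Pool.Agent.Helper823.ManeG.Defs
import Pool.Agent.Helper823.ManeG.X0
import Pool.Agent.Helper823.ManeG.Xnice
import Pool.Agent.Helper823.ManeG.Xbconv
import Pool.Agent.Helper823.ManeG.Xbconc
import Pool.Agent.Helper823.ManeG.Xbmin
import Pool.Agent.Helper823.ManeG.Xopen
import Pool.Agent.Helper823.ManeG.Xclosed
import Pool.Agent.Helper823.ManeG.Xgraph
import Pool.Agent.Helper823.ManeG.Xexmin
import Pool.Agent.Helper823.ManeG.XsaddleD
import Pool.Agent.Helper823.ManeG.XcoverD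

set_option autoImplicit false
open MeasureTheory Set Topology

namespace Pool.Agent.Helper823.ManeG
namespace Xfinal































/-- the good sets -/
def fmO {B : Type} [MetricSpace B] [MeasurableSpace B] {N d : ℕ} (D : Data B N d)
    (L : B × E N → ℝ) (g : B → ℝ) (R j : ℕ) : Set (B → ℝ) :=
  {f | ∃ F : Finset (E d × ℝ), (∀ b ∈ F, 0 < b.2) ∧ ∑ b ∈ F, b.2 ^ (d - 2) < 1 / ((j : ℝ) + 1) ∧
    ∀ h : E d, ‖h‖ ≤ (R : ℝ) → (∀ b ∈ F, b.2 ≤ ‖h - b.1‖) → GoodM D L g f (1 / ((R : ℝ) + 1)) h}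

theorem fm_mem {B : Type} [MetricSpace B] [MeasurableSpace B] {N d : ℕ} (D : Data B N d)
    (L : B × E N → ℝ) (g : B → ℝ) (R j : ℕ) (f : B → ℝ) :
    f ∈ fmO D L g R j ↔ ∃ F : Finset (E d × ℝ), (∀ b ∈ F, 0 < b.2) ∧
      ∑ b ∈ F, b.2 ^ (d - 2) < 1 / ((j : ℝ) + 1) ∧
      ∀ h : E d, ‖h‖ ≤ (R : ℝ) → (∀ b ∈ F, b.2 ≤ ‖h - b.1‖) →
        GoodM D L g f (1 / ((R : ℝ) + 1)) h := Iff.rfl

theorem fm_compact {d : ℕ} (R : ℕ) (F : Finset (E d × ℝ)) :
    IsCompact {h : E d | ‖h‖ ≤ (R : ℝ) ∧ ∀ b ∈ F, b.2 ≤ ‖h - b.1‖} := by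
  have he : {h : E d | ‖h‖ ≤ (R : ℝ) ∧ ∀ b ∈ F, b.2 ≤ ‖h - b.1‖}
      = Metric.closedBall (0 : E d) (R : ℝ) ∩ ⋂ b ∈ F, {h : E d | b.2 ≤ ‖h - b.1‖} := by
    apply Set.ext
    intro h
    constructor
    · rintro ⟨h1, h2⟩
      refine ⟨mem_closedBall_zero_iff.mpr h1, ?_⟩
      rw [Set.mem_iInter₂]
      intro b hb
      exact h2 b hb
    · rintro ⟨h1, h2⟩
      rw [Set.mem_iInter₂] at h2
      exact ⟨mem_closedBall_zero_iff.mp h1, fun b hb => h2 b hb⟩
  rw [he]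
  refine (isCompact_closedBall (0 : E d) (R : ℝ)).inter_right ?_
  refine isClosed_biInter fun b _ => ?_
  have hc : Continuous (fun h : E d => ‖h - b.1‖) := (continuous_id.sub continuous_const).norm
  exact isClosed_le continuous_const hc

theorem fm_open {B : Type} [MetricSpace B] [CompactSpace B] [MeasurableSpace B] [BorelSpace B]
    {N d : ℕ} (D : Data B N d) (hex : HasClosed D)
    (L : B × E N → ℝ) (hL : NiceM D L)
    (C : (B → ℝ) → Prop) (cl : (B → ℝ) → (B → ℝ) → ℝ → Prop)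
    (hC : ∀ f, C f → Continuous f)
    (hcl : ∀ f g ε, cl f g ε → ∀ x, |f x - g x| < ε)
    (g : B → ℝ) (hg : C g) (R j : ℕ) :
    ∀ f ∈ fmO D L g R j, C f → ∃ ε > 0, ∀ g', C g' → cl f g' ε → g' ∈ fmO D L g R j := by
  intro f hfO hf
  obtain ⟨F, hF1, hF2, hF3⟩ := (fm_mem D L g R j f).mp hfO
  obtain ⟨η, hη, hgood⟩ := goodM_open D hex L hL f g (hC f hf) (hC g hg)
    {h : E d | ‖h‖ ≤ (R : ℝ) ∧ ∀ b ∈ F, b.2 ≤ ‖h - b.1‖} (fm_compact R F)
    (1 / ((R : ℝ) + 1)) (fun h hh => hF3 h hh.1 hh.2)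
  refine ⟨η, hη, ?_⟩
  intro f' hf' hclose
  refine (fm_mem D L g R j f').mpr ⟨F, hF1, hF2, fun h h1 h2 => ?_⟩
  exact hgood f' (hC f' hf') (hcl f f' η hclose) h ⟨h1, h2⟩

theorem fm_dense {B : Type} [MetricSpace B] [CompactSpace B] [MeasurableSpace B] [BorelSpace B]
    {N d : ℕ} (D : Data B N d) (hex : HasClosed D)
    (L : B × E N → ℝ) (hL : NiceM D L)
    (C : (B → ℝ) → Prop) (cl : (B → ℝ) → (B → ℝ) → ℝ → Prop)
    (hC : ∀ f, C f → Continuous f)
    (g : B → ℝ) (hg : C g)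
    (hadd : ∀ (f g : B → ℝ) (s : ℝ), C f → C g → C (fun x => f x + s * g x))
    (hsmall : ∀ (f : B → ℝ) (ε : ℝ), C f → 0 < ε →
      ∃ η > 0, ∀ s : ℝ, |s| < η → cl f (fun x => f x + s * g x) ε)
    (R j : ℕ) : ∀ f, C f → ∀ ε > 0, ∃ g' ∈ fmO D L g R j, C g' ∧ cl f g' ε := by
  intro f hf ε hε
  have hgc := hC g hg
  have hfc := hC f hf
  obtain ⟨η, hη, hclose⟩ := hsmall f ε hf hε
  have hs : ∀ h : E d, ConcaveOn ℝ Set.univ (fun s : ℝ => betaM D L (fun x => f x + s * g x) h) :=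
    fun h => betaM_concave D hex L hL f g hfc hgc h
  have hh : ∀ s : ℝ, ConvexOn ℝ Set.univ (betaM D L (fun x => f x + s * g x)) := fun s =>
    betaM_convex D hex L hL _ (hfc.add (continuous_const.mul hgc))
  have hae := saddle_ae_null (fun s h => betaM D L (fun x => f x + s * g x) h) hs hh
  have hd := Measure.dense_of_ae hae
  obtain ⟨s, hsη, hsd⟩ := hd.exists_mem_open (isOpen_Ioo (a := -η) (b := η)) ⟨0, by
    constructor <;> linarith⟩
  have hsabs : |s| < η := abs_lt.mpr hsd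
  have hsη' : NullSet d {h : E d | ¬ DifferentiableAt ℝ
      (fun s' => betaM D L (fun x => f x + s' * g x) h) s} := hsη
  refine ⟨fun x => f x + s * g x, ?_, hadd f g s hf hg, hclose s hsabs⟩
  have hf'c : Continuous (fun x => f x + s * g x) := hfc.add (continuous_const.mul hgc)
  have hgood : ∀ h : E d, DifferentiableAt ℝ (fun s' => betaM D L (fun x => f x + s' * g x) h) s →
      GoodM D L g (fun x => f x + s * g x) (1 / ((R : ℝ) + 1)) h := by
    intro h hdiff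
    have h1 := (second_difference (fun s : ℝ => betaM D L (fun x => f x + s * g x) h) (hs h) s).mp
      hdiff (1 / ((R : ℝ) + 1)) (by positivity)
    obtain ⟨δ, hδ, h2⟩ := h1
    refine ⟨δ, hδ, ?_⟩
    have e1 : (fun x => f x + s * g x + δ * g x) = (fun x => f x + (s + δ) * g x) := by
      funext x; ring
    have e2 : (fun x => f x + s * g x + (-δ) * g x) = (fun x => f x + (s - δ) * g x) := by
      funext x; ring
    rw [e1, e2]
    exact h2
  have hKc : IsCompact ({h : E d | ¬ GoodM D L g (fun x => f x + s * g x) (1 / ((R : ℝ) + 1)) h}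
      ∩ Metric.closedBall (0 : E d) (R : ℝ)) :=
    (isCompact_closedBall (0 : E d) (R : ℝ)).inter_left (badM_closed D hex L hL _ g hf'c hgc _)
  have hK0 : NullSet d ({h : E d | ¬ GoodM D L g (fun x => f x + s * g x)
      (1 / ((R : ℝ) + 1)) h} ∩ Metric.closedBall (0 : E d) (R : ℝ)) := by
    refine nullSet_mono ?_ hsη'
    rintro h ⟨h1, _⟩
    intro hdiff
    exact h1 (hgood h hdiff)
  obtain ⟨F, hF1, hF2, hF3⟩ := small_coverD _ hKc hK0 (1 / ((j : ℝ) + 1)) (by positivity)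
  refine (fm_mem D L g R j _).mpr ⟨F, hF1, hF2, fun h h1 h2 => ?_⟩
  by_contra hcon
  obtain ⟨b, hb, hlt⟩ := hF3 h ⟨hcon, mem_closedBall_zero_iff.mpr h1⟩
  exact absurd hlt (not_lt.mpr (h2 b hb))

theorem fm_null {B : Type} [MetricSpace B] [MeasurableSpace B]
    {N d : ℕ} (D : Data B N d) (L : B × E N → ℝ) (g f : B → ℝ) (R : ℕ)
    (hO : ∀ j : ℕ, f ∈ fmO D L g R j) :
    NullSet d {h : E d | ‖h‖ ≤ (R : ℝ) ∧ ¬ GoodM D L g f (1 / ((R : ℝ) + 1)) h} := by
  refine nullSet_of_small_cover _ fun j => ?_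
  obtain ⟨F, hF1, hF2, hF3⟩ := (fm_mem D L g R j f).mp (hO j)
  refine ⟨F, hF1, hF2, ?_⟩
  rintro h ⟨h1, h2⟩
  by_contra hcon
  apply h2
  refine hF3 h h1 fun b hb => ?_
  by_contra hlt
  exact hcon ⟨b, hb, not_le.mp hlt⟩

theorem fm_diff {B : Type} [MetricSpace B] [CompactSpace B] [MeasurableSpace B] [BorelSpace B]
    {N d : ℕ} (D : Data B N d) (hex : HasClosed D)
    (L : B × E N → ℝ) (hL : NiceM D L) (f g : B → ℝ) (hf : Continuous f)
    (hg : Continuous g) (h : E d)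
    (hO : ∀ R : ℕ, ‖h‖ ≤ (R : ℝ) → GoodM D L g f (1 / ((R : ℝ) + 1)) h) :
    DifferentiableAt ℝ (fun s : ℝ => betaM D L (fun x => f x + s * g x) h) 0 := by
  rw [second_difference _ (betaM_concave D hex L hL f g hf hg h) 0]
  intro ε hε
  obtain ⟨N1, hN1⟩ := exists_nat_ge ‖h‖
  obtain ⟨N2, hN2⟩ := exists_nat_one_div_lt hε
  have hle : ‖h‖ ≤ ((max N1 N2 : ℕ) : ℝ) := hN1.trans (by exact_mod_cast le_max_left N1 N2)
  obtain ⟨δ, hδ, h2⟩ := hO (max N1 N2) hle
  refine ⟨δ, hδ, ?_⟩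
  have e0 : (fun x => f x + (0 : ℝ) * g x) = f := by
    funext x; ring
  have e1 : (fun x => f x + (0 + δ) * g x) = (fun x => f x + δ * g x) := by
    funext x; ring
  have e2 : (fun x => f x + (0 - δ) * g x) = (fun x => f x + (-δ) * g x) := by
    funext x; ring
  simp only [e0, e1, e2]
  refine lt_of_le_of_lt ?_ h2
  have h3 : 1 / (((max N1 N2 : ℕ) : ℝ) + 1) ≤ ε := by
    refine le_trans ?_ hN2.le
    apply one_div_le_one_div_of_le (by positivity)
    have : ((N2 : ℕ) : ℝ) ≤ ((max N1 N2 : ℕ) : ℝ) := by exact_mod_cast le_max_right N1 N2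
    linarith
  have h4 := mul_le_mul_of_nonneg_right h3 (le_of_lt hδ)
  linarith

theorem fm_deriv {B : Type} [MetricSpace B] [CompactSpace B] [MeasurableSpace B] [BorelSpace B]
    {N d : ℕ} (D : Data B N d) (hex : HasClosed D)
    (L : B × E N → ℝ) (hL : NiceM D L) (f g : B → ℝ) (hf : Continuous f)
    (hg : Continuous g) (h : E d)
    (hd : DifferentiableAt ℝ (fun s : ℝ => betaM D L (fun x => f x + s * g x) h) 0)
    (μ : Measure (B × E N)) (hμ : IsMinM D (fun p => L p + f p.1) h μ) :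
    ∫ p, g p.1 ∂μ = deriv (fun s : ℝ => betaM D L (fun x => f x + s * g x) h) 0 := by
  obtain ⟨_, _, h3⟩ := betaM_eq_of_min D hex L hL f hf h μ hμ
  have h4 := h3 g hg
  have hd' := hd.hasDerivAt
  have e0 : (fun x => f x + (0 : ℝ) * g x) = f := by
    funext x; ring
  set c := ∫ p, g p.1 ∂μ with hc
  have h5 : HasDerivAt (fun s : ℝ => betaM D L f h + s * c - betaM D L (fun x => f x + s * g x) h)
      (c - deriv (fun s : ℝ => betaM D L (fun x => f x + s * g x) h) 0) 0 := by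
    have h6 : HasDerivAt (fun s : ℝ => betaM D L f h + s * c) c 0 := by
      have := ((hasDerivAt_id (0 : ℝ)).mul_const c).const_add (betaM D L f h)
      simpa using this
    exact h6.sub hd'
  have h7 : IsLocalMin (fun s : ℝ => betaM D L f h + s * c - betaM D L (fun x => f x + s * g x) h)
      0 := by
    refine Filter.Eventually.of_forall fun s => ?_
    have := h4 s
    simp only [zero_mul, add_zero, sub_self]
    linarith
  have h8 := h7.hasDerivAt_eq_zero h5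
  linarith

theorem fm_unique {B : Type} [MetricSpace B] [CompactSpace B] [MeasurableSpace B] [BorelSpace B]
    {N d : ℕ} (D : Data B N d) (hex : HasClosed D)
    (L : B × E N → ℝ) (hL : NiceM D L) (G : ℕ → (B → ℝ)) (hG : ∀ i, Continuous (G i))
    (hsep : ∀ m₁ m₂ : Measure B, IsProbabilityMeasure m₁ → IsProbabilityMeasure m₂ →
      (∀ i, ∫ x, G i x ∂m₁ = ∫ x, G i x ∂m₂) → m₁ = m₂)
    (f : B → ℝ) (hfc : Continuous f) (h : E d)
    (hgood : ∀ (q : ℕ) (R : ℕ), ‖h‖ ≤ (R : ℝ) →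
      GoodM D L (G q) f (1 / ((R : ℝ) + 1)) h) :
    ∃! μ : Measure (B × E N), IsMinM D (fun p => L p + f p.1) h μ := by
  have hnice : NiceM D (fun p : B × E N => L p + f p.1) := nice_addM D L hL f hfc
  obtain ⟨μ, hμ⟩ := existsM_minimizing D hex _ hnice h
  refine ⟨μ, hμ, ?_⟩
  intro ν hν
  refine eqM_of_same_projection D _ hnice h ν μ hν hμ ?_
  have : IsProbabilityMeasure μ := hμ.1.1.prob
  have : IsProbabilityMeasure ν := hν.1.1.prob
  have h1 : IsProbabilityMeasure (μ.map Prod.fst) :=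
    Measure.isProbabilityMeasure_map measurable_fst.aemeasurable
  have h2 : IsProbabilityMeasure (ν.map Prod.fst) :=
    Measure.isProbabilityMeasure_map measurable_fst.aemeasurable
  refine hsep _ _ h2 h1 ?_
  intro q
  have hc : Continuous (G q) := hG q
  rw [integral_map measurable_fst.aemeasurable hc.aestronglyMeasurable,
    integral_map measurable_fst.aemeasurable hc.aestronglyMeasurable]
  have hd := fm_diff D hex L hL f (G q) hfc hc h (hgood q)
  rw [fm_deriv D hex L hL f (G q) hfc hc h hd ν hν, fm_deriv D hex L hL f (G q) hfc hc h hd μ hμ]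

/-! TARGET: prove this one -/
theorem mainM {B : Type} [MetricSpace B] [CompactSpace B] [MeasurableSpace B] [BorelSpace B]
    {N d : ℕ} (D : Data B N d) (hex : HasClosed D)
    (L : B × E N → ℝ) (hL : NiceM D L)
    (C : (B → ℝ) → Prop) (cl : (B → ℝ) → (B → ℝ) → ℝ → Prop)
    (hC : ∀ f, C f → Continuous f)
    (hcl : ∀ f g ε, cl f g ε → ∀ x, |f x - g x| < ε)
    (G : ℕ → (B → ℝ)) (hG : ∀ i, C (G i))
    (hadd : ∀ (f g : B → ℝ) (s : ℝ), C f → C g → C (fun x => f x + s * g x))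
    (hsmall : ∀ (f : B → ℝ) (i : ℕ) (ε : ℝ), C f → 0 < ε →
      ∃ η > 0, ∀ s : ℝ, |s| < η → cl f (fun x => f x + s * G i x) ε)
    (hsep : ∀ m₁ m₂ : Measure B, IsProbabilityMeasure m₁ → IsProbabilityMeasure m₂ →
      (∀ i, ∫ x, G i x ∂m₁ = ∫ x, G i x ∂m₂) → m₁ = m₂) :
    ∃ O : ℕ → Set (B → ℝ),
      (∀ i, ∀ f ∈ O i, C f → ∃ ε > 0, ∀ g, C g → cl f g ε → g ∈ O i) ∧
      (∀ i, ∀ f, C f → ∀ ε > 0, ∃ g ∈ O i, C g ∧ cl f g ε) ∧
      ∀ f, C f → (∀ i, f ∈ O i) →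
        NullSet d {h | ¬ ∃! μ : Measure (B × E N), IsMinM D (fun p => L p + f p.1) h μ} := by
  obtain ⟨e, he⟩ := exists_surjective_nat ((ℕ × ℕ) × ℕ)
  refine ⟨fun i => fmO D L (G (e i).1.1) (e i).1.2 (e i).2,
    fun i => fm_open D hex L hL C cl hC hcl _ (hG _) _ _,
    fun i => fm_dense D hex L hL C cl hC _ (hG _) hadd (fun f ε hf hε => hsmall f _ ε hf hε) _ _,
    ?_⟩
  intro f hf hfO
  have hO : ∀ q R j, f ∈ fmO D L (G q) R j := by
    intro q R j
    obtain ⟨i, hi⟩ := he ((q, R), j)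
    have h1 : f ∈ fmO D L (G (e i).1.1) (e i).1.2 (e i).2 := hfO i
    rw [hi] at h1
    exact h1
  have hnull : NullSet d (⋃ q : ℕ, ⋃ R : ℕ,
      {h : E d | ‖h‖ ≤ (R : ℝ) ∧ ¬ GoodM D L (G q) f (1 / ((R : ℝ) + 1)) h}) := by
    refine nullSet_iUnion _ fun q => nullSet_iUnion _ fun R => ?_
    exact fm_null D L (G q) f R (hO q R)
  refine nullSet_mono ?_ hnull
  intro h hh
  by_contra hcon
  apply hh
  refine fm_unique D hex L hL G (fun i => hC _ (hG i)) hsep f (hC f hf) h ?_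
  intro q R hle
  by_contra hng
  apply hcon
  rw [Set.mem_iUnion]
  refine ⟨q, ?_⟩
  rw [Set.mem_iUnion]
  exact ⟨R, hle, hng⟩


end Xfinal

alias mainM := Xfinal.mainM

end Pool.Agent.Helper823.ManeG
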