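import Pool.Agent.Helper823.ManeG.Defs

set_option autoImplicit false
open MeasureTheory Set Topology
open scoped ContDiff

namespace Pool.Agent.Helper823.ManeG
namespace XmT


/-! TARGET: prove this one -/
theorem isClosed_TM {N r : ℕ} (M : Set (E N)) (T : E N → Submodule ℝ (E N))
    (hM : IsSubmanifold r M T) :
    IsClosed {p : Base M × E N | p.2 ∈ T (p.1.1 : E N)} := by
  apply IsSeqClosed.isClosed
  intro u p hu hlim
  simp only [Set.mem_setOf_eq] at hu ⊢
  obtain ⟨U, F, hU, hxU, hF, hMU, hT⟩ := hM.chart (p.1.1 : E N) p.1.1.2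
  have hx : Filter.Tendsto (fun n => ((u n).1.1 : E N)) Filter.atTop (𝓝 (p.1.1 : E N)) := by
    have hc : Continuous (fun q : Base M × E N => (q.1.1 : E N)) := by fun_prop
    exact (hc.tendsto p).comp hlim
  have hv : Filter.Tendsto (fun n => (u n).2) Filter.atTop (𝓝 p.2) := by
    have hc : Continuous (fun q : Base M × E N => q.2) := by fun_prop
    exact (hc.tendsto p).comp hlim
  have hcF : ContinuousAt (fun x => fderiv ℝ F x) (p.1.1 : E N) :=
    (hF.continuousOn_fderiv_of_isOpen hU (by exact_mod_cast le_top)).continuousAt (hU.mem_nhds hxU)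
  have h1 : Filter.Tendsto (fun n => (fderiv ℝ F ((u n).1.1 : E N)) (u n).2) Filter.atTop
      (𝓝 ((fderiv ℝ F (p.1.1 : E N)) p.2)) := by
    have hf' : Filter.Tendsto (fun n => fderiv ℝ F ((u n).1.1 : E N)) Filter.atTop
      (𝓝 (fderiv ℝ F (p.1.1 : E N))) := hcF.tendsto.comp hx
    have hap : Continuous (fun q : (E N →L[ℝ] E r) × E N => q.1 q.2) := by fun_prop
    exact (hap.tendsto (fderiv ℝ F (p.1.1 : E N), p.2)).comp (hf'.prodMk_nhds hv)
  have h2 : ∀ᶠ n in Filter.atTop, (fderiv ℝ F ((u n).1.1 : E N)) (u n).2 = 0 := by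
    filter_upwards [hx.eventually (hU.mem_nhds hxU)] with n hn
    exact ((hT _ ⟨(u n).1.1.2, hn⟩).2 _).1 (hu n)
  have h3 : (fderiv ℝ F (p.1.1 : E N)) p.2 = 0 := by
    have h4 : Filter.Tendsto (fun _ : ℕ => (0 : E r)) Filter.atTop
      (𝓝 ((fderiv ℝ F (p.1.1 : E N)) p.2)) := h1.congr' h2
    exact tendsto_nhds_unique h4 tendsto_const_nhds |>.symm ▸ rfl
  exact ((hT _ ⟨p.1.1.2, hxU⟩).2 _).2 h3


end XmT

alias isClosed_TM := XmT.isClosed_TM

end Pool.Agent.Helper823.ManeG
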