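import Pool.Agent.Helper823.ManeG.Defs

set_option autoImplicit false
open MeasureTheory Set Topology
open scoped ContDiff

namespace Pool.Agent.Helper823.ManeG
namespace Xmbas



theorem isCk_contM {N : ℕ} (M : Set (E N)) (k : ℕ) (f : Base M → ℝ) (hf : IsCk k M f) :
    Continuous f := by
  obtain ⟨φ, hφ, h1⟩ := hf
  have hq : IsOpenQuotientMap (Prod.map (id : E N → E N) (fun t : ℝ => (t : UnitAddCircle))) :=
    IsOpenQuotientMap.id.prodMap QuotientAddGroup.isOpenQuotientMap_mk
  have hφc : Continuous φ := hq.isQuotientMap.continuous_iff.mpr (ContDiff.continuous hφ)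
  have h2 : f = fun p : Base M => φ ((p.1 : E N), p.2) := by
    funext p; exact (h1 p).symm
  have h3 : Continuous (fun p : Base M => ((p.1 : E N), p.2)) :=
    (continuous_subtype_val.comp continuous_fst).prodMk continuous_snd
  rw [h2]
  exact hφc.comp h3

theorem closeCk_supM {N : ℕ} (M : Set (E N)) (k : ℕ) (f g : Base M → ℝ) (ε : ℝ)
    (h : CloseCk k M f g ε) : ∀ x : Base M, |f x - g x| < ε := by
  obtain ⟨φ, hφ, h1, h2⟩ := h
  intro x
  obtain ⟨t, ht⟩ := QuotientAddGroup.mk_surjective x.2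
  have h3 := h2 0 (Nat.zero_le k) x.1 x.1.2 t
  rw [norm_iteratedFDeriv_zero] at h3
  have h4 : φ ((x.1 : E N), (t : UnitAddCircle)) = f x - g x := by
    rw [← h1 x, ← ht]
  simp only at h3
  rw [h4, Real.norm_eq_abs] at h3
  exact h3

theorem isCk_add_mulM {N : ℕ} (M : Set (E N)) (k : ℕ) (f g : Base M → ℝ) (s : ℝ)
    (hf : IsCk k M f) (hg : IsCk k M g) : IsCk k M (fun x => f x + s * g x) := by
  obtain ⟨φ, hφ, h1⟩ := hf
  obtain ⟨ψ, hψ, h2⟩ := hg
  refine ⟨fun y => φ y + s * ψ y, ?_, ?_⟩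
  · unfold IsCkA at *
    exact hφ.add (contDiff_const.mul hψ)
  · intro p
    simp only
    rw [h1, h2]


end Xmbas

alias isCk_contM := Xmbas.isCk_contM
alias closeCk_supM := Xmbas.closeCk_supM
alias isCk_add_mulM := Xmbas.isCk_add_mulM

end Pool.Agent.Helper823.ManeG
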