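import Pool.Agent.Helper823.ManeG.Defs

set_option autoImplicit false
open MeasureTheory Set Topology
open scoped ContDiff

namespace Pool.Agent.Helper823.ManeG
namespace Xmdec


theorem totalDeriv_decompM_aux {N : ℕ} (φ : E N × UnitAddCircle → ℝ) (x : E N) (s s' : ℝ)
    (h : (s : UnitAddCircle) = (s' : UnitAddCircle)) :
    fderiv ℝ (fun y : E N × ℝ => φ (y.1, (y.2 : UnitAddCircle))) (x, s) =
      fderiv ℝ (fun y : E N × ℝ => φ (y.1, (y.2 : UnitAddCircle))) (x, s') := by
  have hz : ((s' - s : ℝ) : UnitAddCircle) = 0 := by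
    rw [AddCircle.coe_sub, h, sub_self]
  have hF : (fun u : E N × ℝ => (fun y : E N × ℝ => φ (y.1, (y.2 : UnitAddCircle)))
      (u + ((0 : E N), s' - s))) = fun y : E N × ℝ => φ (y.1, (y.2 : UnitAddCircle)) := by
    funext u
    show φ (u.1 + 0, ((u.2 + (s' - s) : ℝ) : UnitAddCircle)) = φ (u.1, (u.2 : UnitAddCircle))
    rw [AddCircle.coe_add, hz, add_zero, add_zero]
  have h2 := fderiv_comp_add_right (𝕜 := ℝ)
    (f := fun y : E N × ℝ => φ (y.1, (y.2 : UnitAddCircle))) (x := (x, s)) ((0 : E N), s' - s)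
  rw [hF] at h2
  rw [h2]
  congr 1
  ext <;> simp

/-! TARGET: prove this one -/
theorem totalDeriv_decompM {N : ℕ} (M : Set (E N)) (φ : E N × UnitAddCircle → ℝ)
    (hφ : IsCkA 1 φ) :
    ∃ (a : Base M → E N) (b : Base M → ℝ), Continuous a ∧ Continuous b ∧
      ∀ (p : Base M) (v : E N), totalDeriv φ (p, v) = b p + inner ℝ (a p) v := by
  set F : E N × ℝ → ℝ := fun y => φ (y.1, (y.2 : UnitAddCircle)) with hF
  have hFs : ContDiff ℝ 1 F := hφ
  have hFd : Differentiable ℝ F := hFs.differentiable (by norm_num)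
  have hFc : Continuous (fderiv ℝ F) := hFs.continuous_fderiv (by norm_num)
  have hsurj : Function.Surjective (fun s : ℝ => (s : UnitAddCircle)) :=
    QuotientAddGroup.mk_surjective
  set sec : UnitAddCircle → ℝ := Function.surjInv hsurj with hsec
  have hsecx : ∀ t : UnitAddCircle, ((sec t : ℝ) : UnitAddCircle) = t := Function.surjInv_eq hsurj
  set G : E N × UnitAddCircle → (E N × ℝ →L[ℝ] ℝ) := fun q => fderiv ℝ F (q.1, sec q.2) with hG
  have hq : IsOpenQuotientMap (Prod.map (id : E N → E N) (fun s : ℝ => (s : UnitAddCircle))) :=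
    IsOpenQuotientMap.id.prodMap QuotientAddGroup.isOpenQuotientMap_mk
  have hGc : Continuous G := by
    rw [hq.isQuotientMap.continuous_iff]
    have h1 : G ∘ (Prod.map (id : E N → E N) (fun s : ℝ => (s : UnitAddCircle))) = fderiv ℝ F := by
      funext y
      show fderiv ℝ F (y.1, sec ((y.2 : ℝ) : UnitAddCircle)) = fderiv ℝ F y
      exact totalDeriv_decompM_aux φ y.1 _ _ (hsecx _)
    rw [h1]
    exact hFc
  have hι : Continuous (fun p : Base M => (((p.1 : E N), p.2) : E N × UnitAddCircle)) :=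
    (continuous_subtype_val.comp continuous_fst).prodMk continuous_snd
  have hGM : Continuous (fun p : Base M => G ((p.1 : E N), p.2)) := hGc.comp hι
  refine ⟨fun p => (InnerProductSpace.toDual ℝ (E N)).symm
      ((G ((p.1 : E N), p.2)).comp (ContinuousLinearMap.inl ℝ (E N) ℝ)),
    fun p => G ((p.1 : E N), p.2) ((0 : E N), (1 : ℝ)), ?_, ?_, ?_⟩
  · exact (InnerProductSpace.toDual ℝ (E N)).symm.continuous.comp (hGM.clm_comp continuous_const)
  · exact hGM.clm_apply continuous_const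
  · intro p v
    set x : E N := (p.1 : E N) with hx
    set r : ℝ := sec p.2 with hr
    have h1 : (fun s : ℝ => φ (x + s • v, p.2 + (s : UnitAddCircle))) =
        fun s : ℝ => F ((x, r) + s • (v, (1 : ℝ))) := by
      funext s
      show _ = φ (x + s • v, ((r + s • (1 : ℝ) : ℝ) : UnitAddCircle))
      rw [smul_eq_mul, mul_one, AddCircle.coe_add, hr, hsecx]
    have hline : HasDerivAt (fun s : ℝ => (x, r) + s • (v, (1 : ℝ))) (v, (1 : ℝ)) 0 := by
      have := ((hasDerivAt_id (0 : ℝ)).smul_const (v, (1 : ℝ))).const_add (x, r)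
      simpa using this
    have hFx : HasFDerivAt F (fderiv ℝ F (x, r)) ((x, r) + (0 : ℝ) • (v, (1 : ℝ))) := by
      rw [zero_smul, add_zero]
      exact (hFd (x, r)).hasFDerivAt
    have hcomp : HasDerivAt (fun s : ℝ => F ((x, r) + s • (v, (1 : ℝ))))
        (fderiv ℝ F (x, r) (v, (1 : ℝ))) 0 :=
      HasFDerivAt.comp_hasDerivAt (l := F) (f := fun s : ℝ => (x, r) + s • (v, (1 : ℝ))) 0 hFx hline
    show deriv (fun s : ℝ => φ (x + s • v, p.2 + (s : UnitAddCircle))) 0 = _
    rw [h1, hcomp.deriv, InnerProductSpace.toDual_symm_apply]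
    show fderiv ℝ F (x, r) (v, (1 : ℝ)) = fderiv ℝ F (x, r) ((0 : E N), (1 : ℝ)) +
      fderiv ℝ F (x, r) ((v, (0 : ℝ)))
    rw [← map_add]
    congr 1
    ext <;> simp


end Xmdec

alias totalDeriv_decompM := Xmdec.totalDeriv_decompM

end Pool.Agent.Helper823.ManeG
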