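import Pool.Agent.Helper823.ManeG.Defs

set_option autoImplicit false
open MeasureTheory Set Topology
open scoped ContDiff

namespace Pool.Agent.Helper823.ManeG
namespace Xmtan


/-! TARGET: prove this one -/
theorem loop_tangent {N r : ℕ} (M : Set (E N)) (T : E N → Submodule ℝ (E N))
    (hM : IsSubmanifold r M T)
    (γ : ℝ → E N) (hγ : ContDiff ℝ 1 γ) (hm : ∀ t, γ t ∈ M) (t : ℝ) :
    deriv γ t ∈ T (γ t) := by
  obtain ⟨U, F, hU, hxU, hF, hzero, hT⟩ := hM.chart (γ t) (hm t)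
  rw [((hT (γ t) ⟨hm t, hxU⟩).2 _)]
  have hd : HasDerivAt γ (deriv γ t) t := (hγ.differentiable one_ne_zero t).hasDerivAt
  have hFd : HasFDerivAt F (fderiv ℝ F (γ t)) (γ t) :=
    ((hF.contDiffAt (hU.mem_nhds hxU)).differentiableAt (by simp)).hasFDerivAt
  have hcomp : HasDerivAt (F ∘ γ) (fderiv ℝ F (γ t) (deriv γ t)) t := hFd.comp_hasDerivAt t hd
  have hev : F ∘ γ =ᶠ[𝓝 t] fun _ => (0 : E r) := by
    have := hγ.continuous.continuousAt.preimage_mem_nhds (hU.mem_nhds hxU)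
    filter_upwards [this] with s hs
    exact (hzero _ hs).1 (hm s)
  have h0 : HasDerivAt (F ∘ γ) (0 : E r) t := (hasDerivAt_const t (0 : E r)).congr_of_eventuallyEq hev
  exact hcomp.unique h0


end Xmtan

alias loop_tangent := Xmtan.loop_tangent

end Pool.Agent.Helper823.ManeG
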