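import Pool.Agent.Helper823.ManeG.Defs
import Pool.Agent.Helper823.ManeG.Xmdec
import Pool.Agent.Helper823.ManeG.Xmtan

set_option autoImplicit false
open MeasureTheory Set Topology
open scoped ContDiff

namespace Pool.Agent.Helper823.ManeG
namespace Xmcur







noncomputable def xi275 {N : ℕ} (M : Set (E N)) (γ : ℝ → E N) (hm : ∀ t, γ t ∈ M) (t : ℝ) :
    Base M × E N := (((⟨γ t, hm t⟩ : M), (t : UnitAddCircle)), deriv γ t)

theorem xi275_cont {N : ℕ} (M : Set (E N)) (γ : ℝ → E N) (hγ : ContDiff ℝ 1 γ)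
    (hm : ∀ t, γ t ∈ M) : Continuous (xi275 M γ hm) := by
  unfold xi275
  refine ((hγ.continuous.subtype_mk hm).prodMk ?_).prodMk (hγ.continuous_deriv le_rfl)
  exact AddCircle.continuous_mk' 1

theorem ae275 {N : ℕ} (M : Set (E N)) (ξ : ℝ → Base M × E N) (hξ : Continuous ξ)
    (P : Base M × E N → Prop) (h : ∀ t ∈ Icc (0 : ℝ) 1, P (ξ t)) :
    ∀ᵐ p ∂((volume.restrict (Ioc (0 : ℝ) 1)).map ξ), P p := by
  have hK : IsClosed (ξ '' Icc (0 : ℝ) 1) := (isCompact_Icc.image hξ).isClosed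
  have h0 : ((volume.restrict (Ioc (0 : ℝ) 1)).map ξ) (ξ '' Icc (0 : ℝ) 1)ᶜ = 0 := by
    rw [Measure.map_apply hξ.measurable hK.measurableSet.compl,
      Measure.restrict_apply (hξ.measurable hK.measurableSet.compl)]
    have : ξ ⁻¹' (ξ '' Icc (0 : ℝ) 1)ᶜ ∩ Ioc 0 1 = ∅ := by
      ext t
      simp only [mem_inter_iff, mem_preimage, mem_compl_iff, mem_empty_iff_false, iff_false]
      rintro ⟨h1, h2⟩
      exact h1 ⟨t, Ioc_subset_Icc_self h2, rfl⟩
    rw [this, measure_empty]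
  rw [ae_iff]
  refine measure_mono_null ?_ h0
  intro p hp hp'
  obtain ⟨t, ht, rfl⟩ := hp'
  exact hp (h t ht)

theorem td275 {N : ℕ} (M : Set (E N)) (γ : ℝ → E N) (hγ : ContDiff ℝ 1 γ)
    (hm : ∀ t, γ t ∈ M) (φ : E N × UnitAddCircle → ℝ) (hφ : IsCkA 1 φ) (t : ℝ) :
    HasDerivAt (fun s : ℝ => φ (γ s, (s : UnitAddCircle))) (totalDeriv φ (xi275 M γ hm t)) t := by
  have hφ' : ContDiff ℝ 1 (fun y : E N × ℝ => φ (y.1, (y.2 : UnitAddCircle))) := hφ
  set Φ : E N × ℝ → ℝ := fun y => φ (y.1, (y.2 : UnitAddCircle)) with hΦ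
  have hd : HasFDerivAt Φ (fderiv ℝ Φ (γ t, t)) (γ t, t) :=
    (hφ'.differentiable (by norm_num) _).hasFDerivAt
  have hγd : HasDerivAt γ (deriv γ t) t := (hγ.differentiable (by norm_num) t).hasDerivAt
  have h1 : HasDerivAt (fun s : ℝ => (γ s, s)) (deriv γ t, (1 : ℝ)) t :=
    hγd.prodMk (hasDerivAt_id t)
  have h2 : HasDerivAt (fun s : ℝ => Φ (γ s, s)) (fderiv ℝ Φ (γ t, t) (deriv γ t, 1)) t :=
    HasFDerivAt.comp_hasDerivAt (f := fun s : ℝ => (γ s, s)) t hd h1
  have h3 : HasDerivAt (fun s : ℝ => (γ t + s • deriv γ t, t + s)) (deriv γ t, (1 : ℝ)) 0 := by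
    have h4 : HasDerivAt (fun s : ℝ => γ t + s • deriv γ t) (deriv γ t) 0 := by
      have := ((hasDerivAt_id (0 : ℝ)).smul_const (deriv γ t)).const_add (γ t)
      simpa using this
    have h5 : HasDerivAt (fun s : ℝ => t + s) 1 0 := by
      simpa using (hasDerivAt_id (0 : ℝ)).const_add t
    exact h4.prodMk h5
  have hd0 : HasFDerivAt Φ (fderiv ℝ Φ (γ t, t)) (γ t + (0 : ℝ) • deriv γ t, t + 0) := by
    rw [zero_smul, add_zero, add_zero]
    exact hd
  have h6 : HasDerivAt (fun s : ℝ => Φ (γ t + s • deriv γ t, t + s))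
      (fderiv ℝ Φ (γ t, t) (deriv γ t, 1)) 0 :=
    HasFDerivAt.comp_hasDerivAt (f := fun s : ℝ => (γ t + s • deriv γ t, t + s)) (0 : ℝ) hd0 h3
  have h7 : totalDeriv φ (xi275 M γ hm t) = fderiv ℝ Φ (γ t, t) (deriv γ t, 1) := by
    unfold totalDeriv
    rw [← h6.deriv]
    congr 1
  rw [h7]
  exact h2

/-! TARGET: prove this one -/
theorem curve_measure {N r : ℕ} (M : Set (E N)) (T : E N → Submodule ℝ (E N))
    (hM : IsSubmanifold r M T)
    {d : ℕ} (η : Fin d → E N → E N) (hη : ∀ i, ContinuousOn (η i) M)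
    (γ : ℝ → E N) (hγ : ContDiff ℝ 1 γ) (hper : ∀ t, γ (t + 1) = γ t) (hm : ∀ t, γ t ∈ M) :
    ∃ μ : Measure (Base M × E N), IsClosedMeasure M T μ ∧ (∃ R : ℝ, ∀ᵐ p ∂μ, ‖p.2‖ ≤ R) ∧
      ∀ i, hom η μ i = ∫ t in (0 : ℝ)..1, (inner ℝ (η i (γ t)) (deriv γ t) : ℝ) := by
  have hξ := xi275_cont M γ hγ hm
  set ξ := xi275 M γ hm with hξdef
  have hprob : IsProbabilityMeasure (volume.restrict (Ioc (0 : ℝ) 1)) := ⟨by simp⟩
  have hdc : Continuous (deriv γ) := hγ.continuous_deriv le_rfl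
  refine ⟨(volume.restrict (Ioc (0 : ℝ) 1)).map ξ, ⟨?_, ?_, ?_, ?_⟩, ?_, ?_⟩
  · exact Measure.isProbabilityMeasure_map hξ.aemeasurable
  · exact ae275 M ξ hξ _ fun t _ => loop_tangent M T hM γ hγ hm t
  · rw [integrable_map_measure (continuous_snd.norm.aestronglyMeasurable) hξ.aemeasurable]
    exact (hdc.norm).integrableOn_Ioc
  · intro φ hφ
    obtain ⟨a, b, ha, hb, hab⟩ := totalDeriv_decompM M φ hφ
    have hcont : Continuous (totalDeriv (M := M) φ) := by
      have : totalDeriv (M := M) φ = fun p : Base M × E N => b p.1 + inner ℝ (a p.1) p.2 := by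
        funext p
        exact hab p.1 p.2
      rw [this]
      exact (hb.comp continuous_fst).add ((ha.comp continuous_fst).inner continuous_snd)
    rw [integral_map hξ.aemeasurable hcont.aestronglyMeasurable,
      ← intervalIntegral.integral_of_le zero_le_one]
    have h1 : ∫ t in (0 : ℝ)..1, totalDeriv φ (ξ t) =
        φ (γ 1, ((1 : ℝ) : UnitAddCircle)) - φ (γ 0, ((0 : ℝ) : UnitAddCircle)) :=
      intervalIntegral.integral_eq_sub_of_hasDerivAt
        (f := fun s : ℝ => φ (γ s, (s : UnitAddCircle)))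
        (fun t _ => td275 M γ hγ hm φ hφ t) ((hcont.comp hξ).intervalIntegrable _ _)
    have h2 : γ 1 = γ 0 := by
      have := hper 0
      rwa [zero_add] at this
    have h3 : ((1 : ℝ) : UnitAddCircle) = ((0 : ℝ) : UnitAddCircle) := by
      rw [AddCircle.coe_period]
      rfl
    rw [h1, h2, h3, sub_self]
  · obtain ⟨R, hR⟩ := isCompact_Icc.exists_bound_of_continuousOn
      (s := Icc (0 : ℝ) 1) hdc.continuousOn
    exact ⟨R, ae275 M ξ hξ _ fun t ht => hR t ht⟩
  · intro i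
    have hc : Continuous (fun p : Base M × E N => (inner ℝ (η i p.1.1) p.2 : ℝ)) := by
      have h1 : Continuous (M.restrict (η i)) := (hη i).restrict
      exact (h1.comp (continuous_fst.comp continuous_fst)).inner continuous_snd
    have h2 : hom η ((volume.restrict (Ioc (0 : ℝ) 1)).map ξ) i =
        ∫ p : Base M × E N, (inner ℝ (η i p.1.1) p.2 : ℝ)
          ∂((volume.restrict (Ioc (0 : ℝ) 1)).map ξ) := rfl
    rw [h2, integral_map hξ.aemeasurable hc.aestronglyMeasurable,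
      ← intervalIntegral.integral_of_le zero_le_one]
    rfl


end Xmcur

alias curve_measure := Xmcur.curve_measure

end Pool.Agent.Helper823.ManeG
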