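import Pool.Agent.Helper823.ManeG.Defs
import Pool.Agent.Helper823.ManeG.Xmdec

set_option autoImplicit false
open MeasureTheory Set Topology
open scoped ContDiff

namespace Pool.Agent.Helper823.ManeG
namespace Xmmix





theorem closed_mixM_integrable {X : Type} [MeasurableSpace X] {G : Type}
    [NormedAddCommGroup G] (μ ν : Measure X) (a b : ℝ)
    (F : X → G) (h1 : Integrable F μ) (h2 : Integrable F ν) :
    Integrable F (ENNReal.ofReal a • μ + ENNReal.ofReal b • ν) :=
  (h1.smul_measure ENNReal.ofReal_ne_top).add_measure (h2.smul_measure ENNReal.ofReal_ne_top)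

theorem closed_mixM_integral {X : Type} [MeasurableSpace X] {G : Type}
    [NormedAddCommGroup G] [NormedSpace ℝ G] (μ ν : Measure X)
    (a b : ℝ) (ha : 0 ≤ a) (hb : 0 ≤ b)
    (F : X → G) (h1 : Integrable F μ) (h2 : Integrable F ν) :
    ∫ p, F p ∂(ENNReal.ofReal a • μ + ENNReal.ofReal b • ν) =
      a • ∫ p, F p ∂μ + b • ∫ p, F p ∂ν := by
  rw [integral_add_measure (h1.smul_measure ENNReal.ofReal_ne_top)
    (h2.smul_measure ENNReal.ofReal_ne_top), integral_smul_measure, integral_smul_measure,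
    ENNReal.toReal_ofReal ha, ENNReal.toReal_ofReal hb]

theorem closed_mixM_inner {B : Type} [TopologicalSpace B] [SecondCountableTopology B]
    [CompactSpace B] [MeasurableSpace B] [BorelSpace B]
    {N : ℕ} (μ : Measure (B × E N)) (hμ : Integrable (fun p : B × E N => ‖p.2‖) μ)
    (a : B → E N) (ha : Continuous a) :
    Integrable (fun p : B × E N => (inner ℝ (a p.1) p.2 : ℝ)) μ := by
  obtain ⟨A, hA⟩ : ∃ A, ∀ x : B, ‖a x‖ ≤ A := by
    obtain ⟨A, hA⟩ := (isCompact_range ha).isBounded.exists_norm_le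
    exact ⟨A, fun x => hA _ ⟨x, rfl⟩⟩
  refine (hμ.const_mul A).mono' ?_ ?_
  · exact (Continuous.inner (ha.comp continuous_fst) continuous_snd).aestronglyMeasurable
  · refine Filter.Eventually.of_forall fun p => ?_
    calc ‖(inner ℝ (a p.1) p.2 : ℝ)‖ ≤ ‖a p.1‖ * ‖p.2‖ := norm_inner_le_norm _ _
      _ ≤ A * ‖p.2‖ := mul_le_mul_of_nonneg_right (hA p.1) (norm_nonneg _)

theorem closed_mixM_test {B : Type} [TopologicalSpace B] [SecondCountableTopology B]
    [CompactSpace B] [MeasurableSpace B] [BorelSpace B]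
    {N : ℕ} (μ : Measure (B × E N)) [IsFiniteMeasure μ]
    (hμ : Integrable (fun p : B × E N => ‖p.2‖) μ)
    (a : B → E N) (ha : Continuous a) (b : B → ℝ) (hb : Continuous b) :
    Integrable (fun p : B × E N => b p.1 + (inner ℝ (a p.1) p.2 : ℝ)) μ := by
  obtain ⟨C, hC⟩ : ∃ C, ∀ x : B, ‖b x‖ ≤ C := by
    obtain ⟨C, hC⟩ := (isCompact_range hb).isBounded.exists_norm_le
    exact ⟨C, fun x => hC _ ⟨x, rfl⟩⟩
  refine Integrable.add ?_ (closed_mixM_inner μ hμ a ha)
  refine Integrable.of_bound (hb.comp continuous_fst).aestronglyMeasurable C ?_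
  exact Filter.Eventually.of_forall fun p => hC p.1

/-! TARGET: prove this one -/
theorem closed_mixM {N r : ℕ} (M : Set (E N)) (T : E N → Submodule ℝ (E N))
    (hM : IsSubmanifold r M T)
    {d : ℕ} (η : Fin d → E N → E N) (hη : ∀ i, ContinuousOn (η i) M)
    (μ ν : Measure (Base M × E N)) (hμ : IsClosedMeasure M T μ) (hν : IsClosedMeasure M T ν)
    (a b : ℝ) (ha : 0 ≤ a) (hb : 0 ≤ b) (hab : a + b = 1) :
    IsClosedMeasure M T (ENNReal.ofReal a • μ + ENNReal.ofReal b • ν) ∧
      hom η (ENNReal.ofReal a • μ + ENNReal.ofReal b • ν) = a • hom η μ + b • hom η ν := by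
  haveI : CompactSpace M := isCompact_iff_compactSpace.1 hM.compact
  have hμp := hμ.prob
  have hνp := hν.prob
  refine ⟨⟨?_, ?_, ?_, ?_⟩, ?_⟩
  · refine ⟨?_⟩
    rw [Measure.add_apply, Measure.smul_apply, Measure.smul_apply, measure_univ, measure_univ,
      smul_eq_mul, smul_eq_mul, mul_one, mul_one, ← ENNReal.ofReal_add ha hb, hab,
      ENNReal.ofReal_one]
  · rw [ae_add_measure_iff]
    exact ⟨Measure.ae_smul_measure hμ.tangent _, Measure.ae_smul_measure hν.tangent _⟩
  · exact closed_mixM_integrable μ ν a b _ hμ.moment hν.moment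
  · intro φ hφ
    obtain ⟨a', b', ha', hb', hab'⟩ := totalDeriv_decompM M φ hφ
    have hfun : (fun p : Base M × E N => totalDeriv φ p) =
        fun p : Base M × E N => b' p.1 + (inner ℝ (a' p.1) p.2 : ℝ) := by
      funext p
      exact hab' p.1 p.2
    have i1 : Integrable (fun p : Base M × E N => totalDeriv φ p) μ := by
      rw [hfun]
      exact closed_mixM_test μ hμ.moment a' ha' b' hb'
    have i2 : Integrable (fun p : Base M × E N => totalDeriv φ p) ν := by
      rw [hfun]
      exact closed_mixM_test ν hν.moment a' ha' b' hb'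
    rw [closed_mixM_integral μ ν a b ha hb _ i1 i2, hμ.closed φ hφ, hν.closed φ hφ]
    simp
  · ext i
    have hc : Continuous (fun p : Base M => η i (p.1 : E N)) :=
      ((hη i).restrict).comp continuous_fst
    have h1 := closed_mixM_integral μ ν a b ha hb _
      (closed_mixM_inner μ hμ.moment (fun p : Base M => η i (p.1 : E N)) hc)
      (closed_mixM_inner ν hν.moment (fun p : Base M => η i (p.1 : E N)) hc)
    simpa [hom] using h1



end Xmmix

alias closed_mixM := Xmmix.closed_mixM

end Pool.Agent.Helper823.ManeG
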