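import Pool.Agent.Helper823.ManeG.Defs
import Pool.Agent.Helper823.ManeG.Xmcur
import Pool.Agent.Helper823.ManeG.Xmmix

set_option autoImplicit false
open MeasureTheory Set Topology
open scoped ContDiff

namespace Pool.Agent.Helper823.ManeG
namespace Xmex







/-! TARGET: prove this one -/
theorem loop_mem {N r : ℕ} (M : Set (E N)) (T : E N → Submodule ℝ (E N))
    (hM : IsSubmanifold r M T)
    {d : ℕ} (η : Fin d → E N → E N) (γ : Fin d → ℝ → E N) (hb : IsHomologyBasis M T η γ)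
    (j : Fin d) (c : ℤ) :
    ∃ μ : Measure (Base M × E N), IsClosedMeasure M T μ ∧ (∃ R : ℝ, ∀ᵐ p ∂μ, ‖p.2‖ ≤ R) ∧
      hom η μ = EuclideanSpace.single j (c : ℝ) := by
  have hη : ∀ i, ContinuousOn (η i) M := fun i => (hb.form i).1
  obtain ⟨hsm, hper, hm⟩ := hb.loop j
  have hsm' : ContDiff ℝ 1 (fun t : ℝ => γ j ((c : ℝ) * t)) :=
    hsm.comp (contDiff_const.mul contDiff_id)
  have hP : Function.Periodic (γ j) 1 := hper
  have hper' : ∀ t : ℝ, γ j ((c : ℝ) * (t + 1)) = γ j ((c : ℝ) * t) := by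
    intro t
    have := hP.int_mul c ((c : ℝ) * t)
    rw [mul_add, mul_one]
    simpa using this
  obtain ⟨μ, h1, h2, h3⟩ := curve_measure M T hM η hη (fun t : ℝ => γ j ((c : ℝ) * t)) hsm' hper'
    (fun t => hm _)
  refine ⟨μ, h1, h2, ?_⟩
  ext i
  rw [h3 i]
  have hderiv : ∀ t : ℝ, deriv (fun t : ℝ => γ j ((c : ℝ) * t)) t = (c : ℝ) • deriv (γ j) ((c : ℝ) * t) := by
    intro t
    have hd : HasDerivAt (γ j) (deriv (γ j) ((c : ℝ) * t)) ((c : ℝ) * t) :=
      ((hsm.differentiable (by norm_num)) _).hasDerivAt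
    have hl : HasDerivAt (fun t : ℝ => (c : ℝ) * t) (c : ℝ) t := by
      simpa using (hasDerivAt_id t).const_mul (c : ℝ)
    exact (hd.scomp t hl).deriv
  have hdc : Continuous (deriv (γ j)) := hsm.continuous_deriv (by norm_num)
  have hF : Continuous (fun t : ℝ => (inner ℝ (η i (γ j t)) (deriv (γ j) t) : ℝ)) := by
    refine Continuous.inner ?_ hdc
    exact (hη i).comp_continuous hsm.continuous hm
  have hdper : Function.Periodic (deriv (γ j)) 1 := by
    intro t
    have : deriv (fun s => γ j (s + 1)) t = deriv (γ j) (t + 1) := deriv_comp_add_const _ _ _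
    rw [← this]
    congr 1
    funext s; exact hper s
  have hFper : Function.Periodic (fun t : ℝ => (inner ℝ (η i (γ j t)) (deriv (γ j) t) : ℝ)) 1 := by
    intro t
    show inner ℝ (η i (γ j (t + 1))) (deriv (γ j) (t + 1)) = _
    rw [hper t, hdper t]
  have e1 : ∫ t in (0 : ℝ)..1, (inner ℝ (η i (γ j ((c : ℝ) * t))) (deriv (fun t : ℝ => γ j ((c : ℝ) * t)) t) : ℝ)
      = (c : ℝ) * ∫ t in (0 : ℝ)..1, (fun t : ℝ => (inner ℝ (η i (γ j t)) (deriv (γ j) t) : ℝ)) ((c : ℝ) * t) := by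
    rw [← intervalIntegral.integral_const_mul]
    refine intervalIntegral.integral_congr (fun t _ => ?_)
    simp only [hderiv, inner_smul_right]
  have e4 := intervalIntegral.mul_integral_comp_mul_left (a := 0) (b := 1)
    (f := (fun t : ℝ => (inner ℝ (η i (γ j t)) (deriv (γ j) t) : ℝ))) (c : ℝ)
  refine e1.trans (e4.trans ?_)
  have e2 := hFper.intervalIntegral_add_zsmul_eq c 0 (fun a b => hF.intervalIntegrable a b)
  have e3 : (c : ℝ) * 1 = 0 + c • (1 : ℝ) := by simp
  rw [mul_zero, e3, e2, zero_add, hb.dual i j]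
  simp [EuclideanSpace.single_apply]

theorem exists_closedM {N r : ℕ} (M : Set (E N)) (T : E N → Submodule ℝ (E N))
    (hM : IsSubmanifold r M T)
    {d : ℕ} (η : Fin d → E N → E N) (γ : Fin d → ℝ → E N) (hb : IsHomologyBasis M T η γ)
    (h : E d) :
    ∃ μ : Measure (Base M × E N), IsClosedMeasure M T μ ∧ (∃ R : ℝ, ∀ᵐ p ∂μ, ‖p.2‖ ≤ R) ∧
      hom η μ = h := by
  have hη : ∀ i, ContinuousOn (η i) M := fun i => (hb.form i).1
  rcases Nat.eq_zero_or_pos d with hd | hd
  · subst hd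
    obtain ⟨x, hx⟩ := hM.connected.nonempty
    obtain ⟨μ, h1, h2, -⟩ := curve_measure M T hM η hη (fun _ => x) contDiff_const (fun _ => rfl)
      (fun _ => hx)
    exact ⟨μ, h1, h2, Subsingleton.elim _ _⟩
  set S : Set (E d) := {h | ∃ μ : Measure (Base M × E N), IsClosedMeasure M T μ ∧
    (∃ R : ℝ, ∀ᵐ p ∂μ, ‖p.2‖ ≤ R) ∧ hom η μ = h} with hS
  have hconv : Convex ℝ S := by
    rintro x ⟨μ, hμ, ⟨R, hR⟩, rfl⟩ y ⟨ν, hν, ⟨R', hR'⟩, rfl⟩ a b ha hb' hab
    obtain ⟨c1, c2⟩ := closed_mixM M T hM η hη μ ν hμ hν a b ha hb' hab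
    refine ⟨_, c1, ⟨max R R', ?_⟩, c2⟩
    rw [ae_add_measure_iff]
    refine ⟨Measure.ae_smul_measure ?_ _, Measure.ae_smul_measure ?_ _⟩
    · filter_upwards [hR] with p hp using hp.trans (le_max_left _ _)
    · filter_upwards [hR'] with p hp using hp.trans (le_max_right _ _)
  have hsing : ∀ (j : Fin d) (t : ℝ), EuclideanSpace.single j t ∈ S := by
    intro j t
    obtain ⟨m, hm⟩ := exists_nat_gt (max |t| 1)
    have hm1 : |t| < m := lt_of_le_of_lt (le_max_left _ _) hm
    have hm0 : (0 : ℝ) < m := lt_of_le_of_lt (abs_nonneg t) hm1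
    have p1 : EuclideanSpace.single j (m : ℝ) ∈ S := by
      have := loop_mem M T hM η γ hb j (m : ℤ)
      simpa [hS] using this
    have p2 : EuclideanSpace.single j (-(m : ℝ)) ∈ S := by
      have := loop_mem M T hM η γ hb j (-(m : ℤ))
      simpa [hS] using this
    have ht := abs_lt.1 hm1
    have ha : 0 ≤ (1 + t / m) / 2 := by
      have : -1 ≤ t / m := by rw [le_div_iff₀ hm0]; linarith
      linarith
    have hb' : 0 ≤ (1 - t / m) / 2 := by
      have : t / m ≤ 1 := by rw [div_le_iff₀ hm0]; linarith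
      linarith
    have := hconv p1 p2 ha hb' (by ring)
    convert this using 1
    ext i
    by_cases hi : i = j
    · subst hi
      simp
      field_simp
      ring
    · simp [hi]
  have key : h = ∑ j : Fin d, ((1 : ℝ) / d) • EuclideanSpace.single j ((d : ℝ) * h j) := by
    have hd' : (d : ℝ) ≠ 0 := by exact_mod_cast hd.ne'
    ext i
    simp only [WithLp.ofLp_sum, Finset.sum_apply, PiLp.smul_apply, EuclideanSpace.single_apply, smul_eq_mul]
    rw [Finset.sum_eq_single i]
    · simp; field_simp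
    · intro b _ hbi
      simp [Ne.symm hbi]
    · simp
  have hmem : h ∈ S := by
    rw [key]
    refine hconv.sum_mem (fun i _ => by positivity) ?_ (fun j _ => hsing j _)
    have hd' : (d : ℝ) ≠ 0 := by exact_mod_cast hd.ne'
    simp [hd']
  exact hmem


end Xmex

alias exists_closedM := Xmex.exists_closedM

end Pool.Agent.Helper823.ManeG
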