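import Pool.Agent.Helper823.ManeG.Defs

set_option autoImplicit false
open MeasureTheory Set Topology
open scoped ContDiff

namespace Pool.Agent.Helper823.ManeG
namespace Xmsep


/-! TARGET: prove this one -/
theorem sf_ck_const {N : ℕ} (M : Set (E N)) (k : ℕ) (r : ℝ) : IsCk k M (fun _ => r) :=
  ⟨fun _ => r, contDiff_const, fun _ => rfl⟩

theorem sf_ck_add {N : ℕ} {M : Set (E N)} {k : ℕ} {f g : Base M → ℝ} (hf : IsCk k M f)
    (hg : IsCk k M g) : IsCk k M (fun p => f p + g p) := by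
  obtain ⟨φ, h1, h2⟩ := hf
  obtain ⟨ψ, h3, h4⟩ := hg
  exact ⟨fun z => φ z + ψ z, ContDiff.add h1 h3, fun p => by
    show φ _ + ψ _ = f p + g p
    rw [h2, h4]⟩

theorem sf_ck_mul {N : ℕ} {M : Set (E N)} {k : ℕ} {f g : Base M → ℝ} (hf : IsCk k M f)
    (hg : IsCk k M g) : IsCk k M (fun p => f p * g p) := by
  obtain ⟨φ, h1, h2⟩ := hf
  obtain ⟨ψ, h3, h4⟩ := hg
  exact ⟨fun z => φ z * ψ z, ContDiff.mul h1 h3, fun p => by
    show φ _ * ψ _ = f p * g p
    rw [h2, h4]⟩

/-- the subalgebra of the continuous `C^k` functions -/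
def sfAlg {N : ℕ} (M : Set (E N)) (k : ℕ) : Subalgebra ℝ C(Base M, ℝ) where
  carrier := {f | IsCk k M f}
  mul_mem' hf hg := sf_ck_mul hf hg
  add_mem' hf hg := sf_ck_add hf hg
  algebraMap_mem' r := sf_ck_const M k r

theorem sf_coord {N : ℕ} (M : Set (E N)) (k : ℕ) (i : Fin N) :
    IsCk k M (fun p => (p.1 : E N) i) := by
  refine ⟨fun z => z.1 i, ?_, fun _ => rfl⟩
  show ContDiff ℝ k (fun y : E N × ℝ => y.1 i)
  have h : ContDiff ℝ k (fun y : E N => y i) := (EuclideanSpace.proj (𝕜 := ℝ) i).contDiff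
  exact h.comp contDiff_fst

theorem sf_circ {N : ℕ} (M : Set (E N)) (k : ℕ) :
    IsCk k M (fun p => ((AddCircle.toCircle p.2 : Circle) : ℂ).re) ∧
    IsCk k M (fun p => ((AddCircle.toCircle p.2 : Circle) : ℂ).im) := by
  have h0 : ∀ t : ℝ, ((AddCircle.toCircle (t : UnitAddCircle) : Circle) : ℂ)
      = Complex.exp ((2 * Real.pi / 1 * t : ℝ) * Complex.I) := by
    intro t
    rw [AddCircle.toCircle_apply_mk, Circle.coe_exp]
  constructor
  · refine ⟨fun z => ((AddCircle.toCircle z.2 : Circle) : ℂ).re, ?_, fun _ => rfl⟩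
    show ContDiff ℝ k (fun y : E N × ℝ => ((AddCircle.toCircle (y.2 : UnitAddCircle) : Circle) : ℂ).re)
    have e : (fun y : E N × ℝ => ((AddCircle.toCircle (y.2 : UnitAddCircle) : Circle) : ℂ).re)
        = fun y : E N × ℝ => Real.cos (2 * Real.pi / 1 * y.2) := by
      funext y
      rw [h0, Complex.exp_ofReal_mul_I_re]
    rw [e]
    exact Real.contDiff_cos.comp (contDiff_const.mul contDiff_snd)
  · refine ⟨fun z => ((AddCircle.toCircle z.2 : Circle) : ℂ).im, ?_, fun _ => rfl⟩
    show ContDiff ℝ k (fun y : E N × ℝ => ((AddCircle.toCircle (y.2 : UnitAddCircle) : Circle) : ℂ).im)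
    have e : (fun y : E N × ℝ => ((AddCircle.toCircle (y.2 : UnitAddCircle) : Circle) : ℂ).im)
        = fun y : E N × ℝ => Real.sin (2 * Real.pi / 1 * y.2) := by
      funext y
      rw [h0, Complex.exp_ofReal_mul_I_im]
    rw [e]
    exact Real.contDiff_sin.comp (contDiff_const.mul contDiff_snd)

theorem sf_sep {N : ℕ} (M : Set (E N)) (k : ℕ) : (sfAlg M k).SeparatesPoints := by
  intro p q hpq
  by_cases h1 : p.1 = q.1
  · have h2 : p.2 ≠ q.2 := fun h => hpq (Prod.ext h1 h)
    have h3 : AddCircle.toCircle p.2 ≠ AddCircle.toCircle q.2 :=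
      fun h => h2 (AddCircle.injective_toCircle one_ne_zero h)
    have hcont : Continuous (fun p : Base M => ((AddCircle.toCircle p.2 : Circle) : ℂ)) :=
      (by fun_prop : Continuous (fun z : Circle => (z : ℂ))).comp
        (AddCircle.continuous_toCircle.comp continuous_snd)
    by_cases h4 : ((AddCircle.toCircle p.2 : Circle) : ℂ).re = ((AddCircle.toCircle q.2 : Circle) : ℂ).re
    · have h5 : ((AddCircle.toCircle p.2 : Circle) : ℂ).im ≠ ((AddCircle.toCircle q.2 : Circle) : ℂ).im := by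
        intro h5
        exact h3 (Circle.ext (Complex.ext h4 h5))
      exact ⟨_, ⟨⟨fun p => ((AddCircle.toCircle p.2 : Circle) : ℂ).im,
        Complex.continuous_im.comp hcont⟩, (sf_circ M k).2, rfl⟩, h5⟩
    · exact ⟨_, ⟨⟨fun p => ((AddCircle.toCircle p.2 : Circle) : ℂ).re,
        Complex.continuous_re.comp hcont⟩, (sf_circ M k).1, rfl⟩, h4⟩
  · have h2 : ∃ i, (p.1 : E N) i ≠ (q.1 : E N) i := by
      by_contra hcon
      push Not at hcon
      apply h1
      apply Subtype.ext
      ext i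
      exact hcon i
    obtain ⟨i, hi⟩ := h2
    have hcont : Continuous (fun p : Base M => (p.1 : E N) i) :=
      (EuclideanSpace.proj (𝕜 := ℝ) i).continuous.comp (continuous_subtype_val.comp continuous_fst)
    exact ⟨_, ⟨⟨fun p => (p.1 : E N) i, hcont⟩, sf_coord M k i, rfl⟩, hi⟩

theorem sf_int {N : ℕ} {M : Set (E N)} [CompactSpace M] (m : Measure (Base M))
    [IsProbabilityMeasure m] (f : C(Base M, ℝ)) : Integrable f m := by
  apply Integrable.of_bound f.continuous.aestronglyMeasurable ‖f‖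
  exact Filter.Eventually.of_forall fun x => f.norm_coe_le_norm x

theorem sf_cont {N : ℕ} {M : Set (E N)} [CompactSpace M] (m : Measure (Base M))
    [IsProbabilityMeasure m] : Continuous (fun f : C(Base M, ℝ) => ∫ x, f x ∂m) := by
  have : LipschitzWith 1 (fun f : C(Base M, ℝ) => ∫ x, f x ∂m) := by
    apply LipschitzWith.of_dist_le_mul
    intro f g
    rw [Real.dist_eq, ← integral_sub (sf_int m f) (sf_int m g), ← Real.norm_eq_abs]
    have h := norm_integral_le_of_norm_le_const (μ := m) (f := fun x => f x - g x) (C := dist f g)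
      (Filter.Eventually.of_forall fun x => by
        rw [← dist_eq_norm]; exact ContinuousMap.dist_apply_le_dist x)
    simpa using h
  exact this.continuous

theorem separating_familyM {N : ℕ} (M : Set (E N)) (hM : IsCompact M) (k : ℕ) :
    ∃ G : ℕ → (Base M → ℝ), (∀ i, IsCk k M (G i)) ∧
      ∀ m₁ m₂ : Measure (Base M), IsProbabilityMeasure m₁ → IsProbabilityMeasure m₂ →
        (∀ i, ∫ x, G i x ∂m₁ = ∫ x, G i x ∂m₂) → m₁ = m₂ := by
  haveI : CompactSpace M := isCompact_iff_compactSpace.1 hM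
  have hdense : Dense ((sfAlg M k : Subalgebra ℝ C(Base M, ℝ)) : Set C(Base M, ℝ)) := by
    have h := ContinuousMap.subalgebra_topologicalClosure_eq_top_of_separatesPoints (sfAlg M k)
      (sf_sep M k)
    rw [dense_iff_closure_eq, ← Subalgebra.topologicalClosure_coe, h]
    rfl
  obtain ⟨t, hts, htc, htd⟩ := hdense.exists_countable_dense_subset
  obtain ⟨G, hG⟩ := htc.exists_eq_range htd.nonempty
  refine ⟨fun i => G i, fun i => hts (by rw [hG]; exact ⟨i, rfl⟩), ?_⟩
  intro m₁ m₂ h1 h2 h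
  have key : ∀ f : C(Base M, ℝ), ∫ x, f x ∂m₁ = ∫ x, f x ∂m₂ := by
    have hcl : IsClosed {f : C(Base M, ℝ) | ∫ x, f x ∂m₁ = ∫ x, f x ∂m₂} :=
      isClosed_eq (sf_cont m₁) (sf_cont m₂)
    have hsub : t ⊆ {f : C(Base M, ℝ) | ∫ x, f x ∂m₁ = ∫ x, f x ∂m₂} := by
      intro f hf
      rw [hG] at hf
      obtain ⟨i, rfl⟩ := hf
      exact h i
    intro f
    have := hcl.closure_subset_iff.2 hsub (htd f)
    exact this
  apply ext_of_forall_integral_eq_of_IsFiniteMeasure
  intro f
  exact key f.toContinuousMap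


end Xmsep

alias separating_familyM := Xmsep.separating_familyM

end Pool.Agent.Helper823.ManeG
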