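import Pool.Agent.Helper823.ManeG.Defs

set_option autoImplicit false
open MeasureTheory Set Topology
open scoped ContDiff

namespace Pool.Agent.Helper823.ManeG
namespace Xmsmall


/-! TARGET: prove this one -/
theorem close_smallM {N : ℕ} (M : Set (E N)) (hM : IsCompact M) (k : ℕ)
    (f g : Base M → ℝ) (hg : IsCk k M g) (ε : ℝ) (hε : 0 < ε) :
    ∃ η > 0, ∀ s : ℝ, |s| < η → CloseCk k M f (fun x => f x + s * g x) ε := by
  obtain ⟨γ, hγ, hγg⟩ := hg
  set Γ : E N × ℝ → ℝ := fun y => γ (y.1, (y.2 : UnitAddCircle)) with hΓ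
  have hΓc : ContDiff ℝ k Γ := hγ
  have hcont : ∀ j ≤ k, Continuous (iteratedFDeriv ℝ j Γ) := fun j hj =>
    hΓc.continuous_iteratedFDeriv (by exact_mod_cast hj)
  have hper : ∀ (j : ℕ) (m : ℤ) (y : E N × ℝ), iteratedFDeriv ℝ j Γ (y + ((0 : E N), (m : ℝ))) =
      iteratedFDeriv ℝ j Γ y := by
    intro j m y
    rw [← iteratedFDeriv_comp_add_right]
    congr 1
    funext z
    simp only [hΓ, Prod.fst_add, Prod.snd_add, add_zero]
    congr 2
    rw [AddCircle.coe_add]
    have : ((m : ℝ) : UnitAddCircle) = 0 := by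
      have h1 := (AddCircle.coe_eq_zero_iff (p := (1 : ℝ)) (x := (m : ℝ))).mpr ⟨m, by simp⟩
      exact h1
    rw [this, add_zero]
  have hFc : Continuous (fun y : E N × ℝ => ∑ j ∈ Finset.range (k + 1), ‖iteratedFDeriv ℝ j Γ y‖) := by
    refine continuous_finsetSum _ fun j hj => ?_
    exact (hcont j (by simpa [Nat.lt_succ_iff] using hj)).norm
  have hK : IsCompact (M ×ˢ (Set.Icc (0 : ℝ) 1)) := hM.prod isCompact_Icc
  obtain ⟨C, hC⟩ := hK.exists_bound_of_continuousOn hFc.continuousOn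
  have hbound : ∀ j ≤ k, ∀ x ∈ M, ∀ t : ℝ, ‖iteratedFDeriv ℝ j Γ (x, t)‖ ≤ C := by
    intro j hj x hx t
    have h1 : iteratedFDeriv ℝ j Γ (x, t) = iteratedFDeriv ℝ j Γ (x, Int.fract t) := by
      rw [← hper j ⌊t⌋ (x, Int.fract t)]
      congr 1
      ext1
      · simp
      · simp
    rw [h1]
    have h2 := hC (x, Int.fract t) ⟨hx, Int.fract_nonneg t, (Int.fract_lt_one t).le⟩
    rw [Real.norm_of_nonneg (Finset.sum_nonneg fun _ _ => norm_nonneg _)] at h2
    refine le_trans ?_ h2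
    exact Finset.single_le_sum (f := fun j => ‖iteratedFDeriv ℝ j Γ (x, Int.fract t)‖)
      (fun _ _ => norm_nonneg _) (Finset.mem_range.mpr (Nat.lt_succ_of_le hj))
  have hC1 : 0 < |C| + 1 := by positivity
  refine ⟨ε / (|C| + 1), div_pos hε hC1, fun s hs => ?_⟩
  refine ⟨fun q => -s * γ q, ?_, ?_, ?_⟩
  · exact contDiff_const.mul hΓc
  · intro p
    change -s * γ (p.1, p.2) = f p - (f p + s * g p)
    rw [hγg p]
    ring
  · intro j hj x hx t
    have h3 : (fun y : E N × ℝ => -s * γ (y.1, (y.2 : UnitAddCircle))) = (-s) • Γ := by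
      funext y
      simp [hΓ]
    rw [h3, iteratedFDeriv_const_smul_apply ((hΓc.of_le (by exact_mod_cast hj)).contDiffAt), norm_smul,
      norm_neg, Real.norm_eq_abs]
    have h4 := hbound j hj x hx t
    have h5 : |s| * (|C| + 1) < ε := by
      rwa [lt_div_iff₀ hC1] at hs
    calc |s| * ‖iteratedFDeriv ℝ j Γ (x, t)‖ ≤ |s| * (|C| + 1) := by
          refine mul_le_mul_of_nonneg_left ?_ (abs_nonneg s)
          linarith [le_abs_self C]
      _ < ε := h5


end Xmsmall

alias close_smallM := Xmsmall.close_smallM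

end Pool.Agent.Helper823.ManeG
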