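import Pool.Agent.Helper823.ManeG.Defs
import Pool.Agent.Helper823.ManeG.XmT

set_option autoImplicit false
open MeasureTheory Set Topology
open scoped ContDiff

namespace Pool.Agent.Helper823.ManeG
namespace Xmton





theorem strictConvex_auxM {N : ℕ} (S : Submodule ℝ (E N)) (g : E N → ℝ) (hg : ContDiff ℝ 2 g)
    (hpos : ∀ v ∈ S, ∀ w ∈ S, w ≠ 0 → 0 < iteratedFDeriv ℝ 2 g v (fun _ => w)) :
    StrictConvexOn ℝ (S : Set (E N)) g := by
  refine ⟨S.convex, ?_⟩
  intro v hv w hw hvw a b ha hb hab
  set d : E N := w - v with hd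
  have hdS : d ∈ S := S.sub_mem hw hv
  have hd0 : d ≠ 0 := by
    intro h
    apply hvw
    rw [hd, sub_eq_zero] at h
    exact h.symm
  have hg1 : Differentiable ℝ g := hg.differentiable (by norm_num)
  have hg2 : Differentiable ℝ (fderiv ℝ g) := by
    have : ContDiff ℝ 1 (fderiv ℝ g) := hg.fderiv_right (by norm_num)
    exact this.differentiable (by norm_num)
  have hline : ∀ t : ℝ, HasDerivAt (fun t : ℝ => v + t • d) d t := by
    intro t
    have h1 : HasDerivAt (fun t : ℝ => t • d) ((1 : ℝ) • d) t :=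
      (hasDerivAt_id t).smul_const d
    rw [one_smul] at h1
    exact h1.const_add v
  have hd1 : ∀ t : ℝ, HasDerivAt (fun t : ℝ => g (v + t • d)) (fderiv ℝ g (v + t • d) d) t := by
    intro t
    exact (hg1 (v + t • d)).hasFDerivAt.comp_hasDerivAt t (hline t)
  have hder1 : deriv (fun t : ℝ => g (v + t • d)) = fun t => fderiv ℝ g (v + t • d) d := by
    funext t
    exact (hd1 t).deriv
  have hd2 : ∀ t : ℝ, HasDerivAt (fun t : ℝ => fderiv ℝ g (v + t • d) d)
      (fderiv ℝ (fderiv ℝ g) (v + t • d) d d) t := by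
    intro t
    have h1 : HasDerivAt (fun t : ℝ => fderiv ℝ g (v + t • d))
        (fderiv ℝ (fderiv ℝ g) (v + t • d) d) t :=
      (hg2 (v + t • d)).hasFDerivAt.comp_hasDerivAt t (hline t)
    have h2 := h1.clm_apply (hasDerivAt_const t d)
    simpa using h2
  have hstrict : StrictConvexOn ℝ Set.univ (fun t : ℝ => g (v + t • d)) := by
    apply strictConvexOn_of_deriv2_pos' convex_univ
    · exact (continuous_iff_continuousAt.mpr (fun t => (hd1 t).continuousAt)).continuousOn
    · intro t _
      have : deriv^[2] (fun t : ℝ => g (v + t • d)) t =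
          fderiv ℝ (fderiv ℝ g) (v + t • d) d d := by
        show deriv (deriv (fun t : ℝ => g (v + t • d))) t = _
        rw [hder1]
        exact (hd2 t).deriv
      rw [this]
      have h3 := hpos (v + t • d) (S.add_mem hv (S.smul_mem t hdS)) d hdS hd0
      rwa [iteratedFDeriv_two_apply] at h3
  have h := hstrict.2 (Set.mem_univ (0 : ℝ)) (Set.mem_univ (1 : ℝ)) (by norm_num) ha hb hab
  simp only [smul_eq_mul, mul_zero, mul_one, zero_add, zero_smul, add_zero, one_smul] at h
  have e1 : v + d = w := by rw [hd]; abel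
  have e2 : v + b • d = a • v + b • w := by
    have ha' : a = 1 - b := by linarith
    rw [hd, ha', smul_sub, sub_smul, one_smul]
    abel
  rw [e1, e2] at h
  simpa using h

/-! TARGET: prove this one -/
theorem tonelli_niceM {N r : ℕ} (M : Set (E N)) (T : E N → Submodule ℝ (E N))
    (hM : IsSubmanifold r M T)
    (k : ℕ) (hk : 2 ≤ k) (L : Base M × E N → ℝ) (hL : IsTonelli k M T L) :
    Continuous L ∧ (∃ A : ℝ, ∀ p : Base M, ∀ v ∈ T (p.1 : E N), A ≤ L (p, v)) ∧
      (∀ p : Base M, StrictConvexOn ℝ (T (p.1 : E N) : Set (E N)) (fun v => L (p, v))) := by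
  obtain ⟨Λ, hΛ, hΛL⟩ := hL.smooth
  have hΛc : Continuous Λ := by
    have hq : IsOpenQuotientMap (fun s : ℝ => (s : UnitAddCircle)) :=
      QuotientAddGroup.isOpenQuotientMap_mk
    have hq2 : IsOpenQuotientMap (Prod.map (Prod.map (id : E N → E N)
        (fun s : ℝ => (s : UnitAddCircle))) (id : E N → E N)) :=
      (IsOpenQuotientMap.id.prodMap hq).prodMap IsOpenQuotientMap.id
    rw [hq2.isQuotientMap.continuous_iff]
    exact hΛ.continuous
  have hLe : L = fun p : Base M × E N => Λ (((p.1.1 : E N), p.1.2), p.2) := by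
    funext p
    exact (hΛL p.1 p.2).symm
  have hLc : Continuous L := by
    rw [hLe]
    exact hΛc.comp (((continuous_subtype_val.comp (continuous_fst.comp continuous_fst)).prodMk
      (continuous_snd.comp continuous_fst)).prodMk continuous_snd)
  refine ⟨hLc, ?_, ?_⟩
  · haveI : CompactSpace M := isCompact_iff_compactSpace.mp hM.compact
    obtain ⟨R, hR⟩ := hL.superlinear 0
    obtain ⟨D, hD⟩ := ((isCompact_univ (X := Base M)).prod
      (isCompact_closedBall (0 : E N) R)).exists_bound_of_continuousOn hLc.continuousOn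
    refine ⟨-|D|, ?_⟩
    intro x v hvT
    by_cases hv : R ≤ ‖v‖
    · have := hR x v hvT hv
      rw [zero_mul] at this
      have h0 : 0 ≤ |D| := abs_nonneg D
      linarith
    · have hmem : (x, v) ∈ (Set.univ : Set (Base M)) ×ˢ Metric.closedBall (0 : E N) R := by
        refine ⟨Set.mem_univ _, ?_⟩
        simp only [Metric.mem_closedBall, dist_zero_right]
        exact (not_le.mp hv).le
      have h2 := hD (x, v) hmem
      rw [Real.norm_eq_abs] at h2
      have h3 := neg_abs_le (L (x, v))
      have h4 := le_abs_self D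
      linarith
  · intro p
    obtain ⟨t, ht⟩ := QuotientAddGroup.mk_surjective p.2
    have hg : ContDiff ℝ 2 (fun u : E N => L (p, u)) := by
      have h1 : ContDiff ℝ 2 (fun z : (E N × ℝ) × E N =>
          Λ ((z.1.1, (z.1.2 : UnitAddCircle)), z.2)) :=
        hΛ.of_le (by exact_mod_cast hk)
      have h2 : ContDiff ℝ 2 (fun u : E N => ((((p.1 : E N), t), u) : (E N × ℝ) × E N)) :=
        contDiff_const.prodMk contDiff_id
      have h3 := h1.comp h2
      have h4 : ((fun z : (E N × ℝ) × E N => Λ ((z.1.1, (z.1.2 : UnitAddCircle)), z.2)) ∘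
          (fun u : E N => ((((p.1 : E N), t), u) : (E N × ℝ) × E N))) =
          fun u : E N => L (p, u) := by
        funext u
        simp only [Function.comp]
        rw [← hΛL p u]
        have ht' : ((t : ℝ) : UnitAddCircle) = p.2 := ht
        rw [ht']
      rwa [h4] at h3
    exact strictConvex_auxM (T (p.1 : E N)) (fun u : E N => L (p, u)) hg
      (fun v hv w hw hw0 => hL.convex p v hv w hw hw0)


end Xmton

alias tonelli_niceM := Xmton.tonelli_niceM

end Pool.Agent.Helper823.ManeG
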