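import Pool.Agent.Helper823.ManeG.Defs
import Pool.Agent.Helper823.ManeG.Xfinal
import Pool.Agent.Helper823.ManeG.XmT
import Pool.Agent.Helper823.ManeG.Xmdec
import Pool.Agent.Helper823.ManeG.Xmex
import Pool.Agent.Helper823.ManeG.Xmton
import Pool.Agent.Helper823.ManeG.Xmsep
import Pool.Agent.Helper823.ManeG.Xmsmall
import Pool.Agent.Helper823.ManeG.Xmbas

set_option autoImplicit false
open MeasureTheory Set Topology
open scoped ContDiff

namespace Pool.Agent.Helper823.ManeG
namespace Xmfin























theorem main_data {N r : ℕ} (M : Set (E N)) (T : E N → Submodule ℝ (E N))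
    (hM : IsSubmanifold r M T)
    {d : ℕ} (η : Fin d → E N → E N) (heta : ∀ i, Continuous (fun p : Base M => η i (p.1 : E N))) :
    ∃ D : Data (Base M) N d, D.T = (fun p : Base M => T (p.1 : E N)) ∧
      (∀ μ : Measure (Base M × E N), IsClosedM D μ ↔ IsClosedMeasure M T μ) ∧
      (∀ μ : Measure (Base M × E N), rotM D μ = hom η μ) := by
  let D : Data (Base M) N d :=
    { T := fun p => T (p.1 : E N)
      closedT := isClosed_TM M T hM
      tests := {q | Continuous q.1 ∧ Continuous q.2 ∧ ∃ φ : E N × UnitAddCircle → ℝ,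
        IsCkA 1 φ ∧ ∀ (p : Base M) (v : E N), totalDeriv φ (p, v) = q.2 p + inner ℝ (q.1 p) v}
      test_cont := fun q hq => ⟨hq.1, hq.2.1⟩
      form := fun i p => η i (p.1 : E N)
      form_cont := heta }
  refine ⟨D, rfl, ?_, fun μ => rfl⟩
  intro μ
  constructor
  · intro h
    refine ⟨h.prob, h.supp, h.moment, ?_⟩
    intro φ hφ
    obtain ⟨a, b, ha, hb', hab⟩ := totalDeriv_decompM M φ hφ
    have h1 := h.closed (a, b) ⟨ha, hb', φ, hφ, hab⟩
    rw [← h1]
    congr 1
    funext p
    exact hab p.1 p.2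
  · intro h
    refine ⟨h.prob, h.tangent, h.moment, ?_⟩
    rintro ⟨a, b⟩ ⟨ha, hb', φ, hφ, hab⟩
    rw [← h.closed φ hφ]
    congr 1
    funext p
    exact (hab p.1 p.2).symm

/-! TARGET: prove this one -/
theorem main {N r : ℕ} (M : Set (E N)) (T : E N → Submodule ℝ (E N))
    (hM : IsSubmanifold r M T)
    {d : ℕ} (η : Fin d → E N → E N) (γ : Fin d → ℝ → E N) (hb : IsHomologyBasis M T η γ)
    (k : ℕ) (hk : 2 ≤ k) (L : Base M × E N → ℝ) (hL : IsTonelli k M T L) :
    IsResidualCk k M {f | NullSet d {h : E d | ¬ ∃! μ : Measure (Base M × E N),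
      IsMinimizing M T η (fun p => L p + f p.1) h μ}} := by
  have hcomp : CompactSpace M := isCompact_iff_compactSpace.1 hM.compact
  have heta : ∀ i, Continuous (fun p : Base M => η i (p.1 : E N)) := by
    intro i
    have h1 : ContinuousOn (η i) M := (hb.form i).1
    exact (continuousOn_iff_continuous_restrict.1 h1).comp continuous_fst
  obtain ⟨D, hDT, hDcl, hDrot⟩ := main_data M T hM η heta
  have hAdm : ∀ (L' : Base M × E N → ℝ) (h : E d) (μ : Measure (Base M × E N)),
      AdmM D L' h μ ↔ Adm M T η L' h μ := by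
    intro L' h μ
    unfold AdmM Adm
    rw [hDcl, hDrot]
  have hMin : ∀ (L' : Base M × E N → ℝ) (h : E d) (μ : Measure (Base M × E N)),
      IsMinM D L' h μ ↔ IsMinimizing M T η L' h μ := by
    intro L' h μ
    unfold IsMinM IsMinimizing
    simp only [hAdm]
  have hex : HasClosed D := by
    intro h
    obtain ⟨μ, h1, h2, h3⟩ := exists_closedM M T hM η γ hb h
    exact ⟨μ, (hDcl μ).2 h1, h2, by rw [hDrot]; exact h3⟩
  obtain ⟨t1, t2, t3⟩ := tonelli_niceM M T hM k hk L hL
  have hNice : NiceM D L := by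
    refine ⟨t1, ?_, ?_, ?_⟩
    · rw [hDT]; exact t2
    · rw [hDT]; exact t3
    · rw [hDT]; exact hL.superlinear
  obtain ⟨G, hG1, hG2⟩ := separating_familyM M hM.compact k
  obtain ⟨O, hO1, hO2, hO3⟩ := mainM D hex L hNice (IsCk k M) (CloseCk k M)
    (fun f hf => isCk_contM M k f hf)
    (fun f g ε h => closeCk_supM M k f g ε h)
    G hG1
    (fun f g s hf hg => isCk_add_mulM M k f g s hf hg)
    (fun f i ε _ hε => close_smallM M hM.compact k f (G i) (hG1 i) ε hε)
    hG2
  refine ⟨O, hO1, hO2, ?_⟩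
  intro f hf hfO
  have h1 := hO3 f hf hfO
  simp only [hMin] at h1
  exact h1


end Xmfin

alias main := Xmfin.main

end Pool.Agent.Helper823.ManeG
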